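import Pool.Agent.Lib.MP_88b2ed_co.Defs

set_option linter.unusedSimpArgs false

namespace Pool.Agent.Lib.MP_88b2ed_co

open scoped InnerProductSpace
open Real

noncomputable section

/-- Gram matrix condition: unit vectors with all pairwise inner products equal to `x`. -/
def Gram (x : ℝ) (v : Fin 3 → E3) : Prop := ∀ i j, ⟪v i, v j⟫_ℝ = if i = j then 1 else x

/-- cosine of the side length of `T_θ` -/
def sideCos (θ : ℝ) : ℝ := cos θ / (1 - cos θ)

theorem Gram.norm {x : ℝ} {v : Fin 3 → E3} (h : Gram x v) (i : Fin 3) : ‖v i‖ = 1 := by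
  have h1 := h i i
  rw [real_inner_self_eq_norm_sq] at h1
  simp at h1
  rcases h1 with h1 | h1
  · exact h1
  · have := norm_nonneg (v i)
    linarith

theorem Gram.indep {x : ℝ} {v : Fin 3 → E3} (h : Gram x v) (h1 : -1 / 2 < x) (h2 : x < 1) :
    LinearIndependent ℝ v := by
  rw [Fintype.linearIndependent_iff]
  intro c hc
  have key : ∀ j, c j * (1 - x) + x * (c 0 + c 1 + c 2) = 0 := by
    intro j
    have h3 : ⟪∑ i, c i • v i, v j⟫_ℝ = 0 := by rw [hc]; simp
    rw [sum_inner] at h3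
    simp only [inner_smul_left, Fin.sum_univ_three] at h3
    rw [h 0 j, h 1 j, h 2 j] at h3
    fin_cases j <;> simp at h3 ⊢ <;> linarith
  have h0 := key 0
  have h1' := key 1
  have h2' := key 2
  have hs : (c 0 + c 1 + c 2) * (1 + 2 * x) = 0 := by linear_combination h0 + h1' + h2'
  have hs' : c 0 + c 1 + c 2 = 0 := by
    rcases mul_eq_zero.mp hs with h | h
    · exact h
    · linarith
  intro i
  have hi := key i
  rw [hs'] at hi
  have : c i * (1 - x) = 0 := by linarith
  rcases mul_eq_zero.mp this with h | h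
  · exact h
  · linarith

theorem cos_sphAngle {p q r : E3} {x : ℝ} (hp : ‖p‖ = 1) (hq : ‖q‖ = 1) (hr : ‖r‖ = 1)
    (hpq : ⟪p, q⟫_ℝ = x) (hpr : ⟪p, r⟫_ℝ = x) (hqr : ⟪q, r⟫_ℝ = x) (h1 : -1 < x) (h2 : x < 1) :
    cos (sphAngle p q r) = x / (1 + x) := by
  unfold sphAngle
  rw [InnerProductGeometry.cos_angle]
  have hqp : ⟪q, p⟫_ℝ = x := by rw [real_inner_comm]; exact hpq
  have hrp : ⟪r, p⟫_ℝ = x := by rw [real_inner_comm]; exact hpr
  have hpp : ⟪p, p⟫_ℝ = 1 := by rw [real_inner_self_eq_norm_sq, hp]; norm_num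
  have hqq : ⟪q, q⟫_ℝ = 1 := by rw [real_inner_self_eq_norm_sq, hq]; norm_num
  have hrr : ⟪r, r⟫_ℝ = 1 := by rw [real_inner_self_eq_norm_sq, hr]; norm_num
  have e1 : ⟪q - ⟪p, q⟫_ℝ • p, r - ⟪p, r⟫_ℝ • p⟫_ℝ = x - x ^ 2 := by
    rw [inner_sub_left, inner_sub_right, inner_sub_right]
    simp only [inner_smul_left, inner_smul_right, hpq, hpr, hqr, hqp, hrp, hpp]
    simp
    ring
  have e2 : ‖q - ⟪p, q⟫_ℝ • p‖ ^ 2 = 1 - x ^ 2 := by
    rw [← real_inner_self_eq_norm_sq, inner_sub_left, inner_sub_right, inner_sub_right]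
    simp only [inner_smul_left, inner_smul_right, hpq, hpr, hqr, hqp, hrp, hpp, hqq]
    simp
    ring
  have e3 : ‖r - ⟪p, r⟫_ℝ • p‖ ^ 2 = 1 - x ^ 2 := by
    rw [← real_inner_self_eq_norm_sq, inner_sub_left, inner_sub_right, inner_sub_right]
    simp only [inner_smul_left, inner_smul_right, hpq, hpr, hqr, hqp, hrp, hpp, hrr]
    simp
    ring
  have e4 : ‖q - ⟪p, q⟫_ℝ • p‖ * ‖r - ⟪p, r⟫_ℝ • p‖ = 1 - x ^ 2 := by
    have : ‖q - ⟪p, q⟫_ℝ • p‖ = ‖r - ⟪p, r⟫_ℝ • p‖ := by
      rw [← sq_eq_sq₀ (norm_nonneg _) (norm_nonneg _), e2, e3]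
    rw [this, ← sq, e3]
  rw [e1, e4]
  have h3 : (1 - x ^ 2) ≠ 0 := by nlinarith
  have h4 : (1 + x) ≠ 0 := by linarith
  field_simp
  ring

theorem cos_lt_half {θ : ℝ} (h1 : π / 3 < θ) (h2 : θ < π) : cos θ < 1 / 2 := by
  rw [← Real.cos_pi_div_three]
  exact Real.cos_lt_cos_of_nonneg_of_le_pi (by positivity) h2.le h1

theorem neg_one_lt_cos {θ : ℝ} (h1 : π / 3 < θ) (h2 : θ < π) : -1 < cos θ := by
  rw [← Real.cos_pi]
  exact Real.cos_lt_cos_of_nonneg_of_le_pi (by linarith [Real.pi_pos]) le_rfl h2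

theorem sideCos_lt_one {θ : ℝ} (h1 : π / 3 < θ) (h2 : θ < π) : sideCos θ < 1 := by
  have h3 := cos_lt_half h1 h2
  unfold sideCos
  rw [div_lt_one (by linarith)]
  linarith

theorem neg_half_lt_sideCos {θ : ℝ} (h1 : π / 3 < θ) (h2 : θ < π) : -1 / 2 < sideCos θ := by
  have h3 := cos_lt_half h1 h2
  have h4 := neg_one_lt_cos h1 h2
  unfold sideCos
  rw [div_lt_div_iff₀ (by norm_num) (by linarith)]
  linarith

/-- Equilateral triangles with angles `θ` are exactly the triples of vectors with the right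
Gram matrix. -/
theorem isEquilateral_iff {θ : ℝ} (h1 : π / 3 < θ) (h2 : θ < π) (v : Fin 3 → E3) :
    IsEquilateral θ v ↔ Gram (sideCos θ) v := by
  have hc1 := cos_lt_half h1 h2
  have hc2 := neg_one_lt_cos h1 h2
  constructor
  · intro h
    set x := ⟪v 0, v 1⟫_ℝ with hx
    have hin : ∀ i j, i ≠ j → ⟪v i, v j⟫_ℝ = x := by
      intro i j hij
      have h3 := h.sides i j 0 1 hij (by decide)
      have h4 := congrArg cos h3
      rw [InnerProductGeometry.cos_angle, InnerProductGeometry.cos_angle, h.unit i, h.unit j,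
        h.unit 0, h.unit 1] at h4
      simpa using h4
    -- |x| < 1
    have hxle : |x| ≤ 1 := by
      have := abs_real_inner_le_norm (v 0) (v 1)
      rw [h.unit 0, h.unit 1] at this
      simpa using this
    have hli : LinearIndependent ℝ ![v 0, v 1] := by
      have h5 := h.indep.comp (![0, 1] : Fin 2 → Fin 3) (by
        intro a b hab
        fin_cases a <;> fin_cases b <;> simp at hab ⊢)
      convert h5 using 1
      ext i
      fin_cases i <;> rfl
    have hx1 : x < 1 := by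
      rcases lt_or_eq_of_le (abs_le.mp hxle).2 with h6 | h6
      · exact h6
      · exfalso
        have h7 : v 0 = v 1 := by
          rw [← inner_eq_one_iff_of_norm_eq_one (𝕜 := ℝ) (h.unit 0) (h.unit 1)]
          exact h6
        have := h.indep.injective h7
        exact absurd this (by decide)
    have hx2 : -1 < x := by
      rcases lt_or_eq_of_le (abs_le.mp hxle).1 with h6 | h6
      · exact h6
      · exfalso
        have h7 : v 0 = -v 1 := by
          rw [← inner_eq_one_iff_of_norm_eq_one (𝕜 := ℝ) (h.unit 0) (by rw [norm_neg]; exact h.unit 1)]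
          rw [inner_neg_right, ← hx, ← h6]
          norm_num
        rw [LinearIndependent.pair_iff] at hli
        have := hli 1 1 (by rw [h7]; simp)
        exact absurd this.1 one_ne_zero
    have h8 := cos_sphAngle (h.unit 0) (h.unit 1) (h.unit 2) (hin 0 1 (by decide))
      (hin 0 2 (by decide)) (hin 1 2 (by decide)) hx2 hx1
    rw [h.angles 0 1 2 (by decide) (by decide) (by decide)] at h8
    have hxθ : x = sideCos θ := by
      unfold sideCos
      rw [eq_div_iff (by linarith), h8]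
      have : (1 + x) ≠ 0 := by linarith
      field_simp
      ring
    intro i j
    split_ifs with hij
    · rw [hij, real_inner_self_eq_norm_sq, h.unit j]; norm_num
    · rw [hin i j hij, hxθ]
  · intro h
    have hx1 := sideCos_lt_one h1 h2
    have hx2 := neg_half_lt_sideCos h1 h2
    refine ⟨h.norm, h.indep hx2 hx1, ?_, ?_⟩
    · intro i j k l hij hkl
      unfold InnerProductGeometry.angle
      rw [h.norm i, h.norm j, h.norm k, h.norm l, h i j, h k l, if_neg hij, if_neg hkl]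
    · intro i j k hij hik hjk
      have h3 := cos_sphAngle (x := sideCos θ) (h.norm i) (h.norm j) (h.norm k) (by rw [h i j, if_neg hij])
        (by rw [h i k, if_neg hik]) (by rw [h j k, if_neg hjk]) (by linarith) hx1
      have h4 : sideCos θ / (1 + sideCos θ) = cos θ := by
        unfold sideCos
        have : (1 - cos θ) ≠ 0 := by linarith
        field_simp
        ring
      rw [h4] at h3
      have h5 : 0 ≤ sphAngle (v i) (v j) (v k) := InnerProductGeometry.angle_nonneg _ _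
      have h6 : sphAngle (v i) (v j) (v k) ≤ π := InnerProductGeometry.angle_le_pi _ _
      exact Real.injOn_cos ⟨h5, h6⟩ ⟨by linarith [Real.pi_pos], h2.le⟩ h3

/-- Two triples of vectors with the same Gram matrix differ by an isometry. -/
theorem exists_isometry {x : ℝ} {v w : Fin 3 → E3} (hv : Gram x v) (hw : Gram x w)
    (h1 : -1 / 2 < x) (h2 : x < 1) : ∃ g : E3 ≃ₗᵢ[ℝ] E3, ∀ i, g (v i) = w i := by
  have hli := hv.indep h1 h2
  have hcard : Fintype.card (Fin 3) = Module.finrank ℝ E3 := by simp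
  let b : Module.Basis (Fin 3) ℝ E3 := basisOfLinearIndependentOfCardEqFinrank hli hcard
  have hb : ∀ i, b i = v i := by
    intro i
    simp [b]
  let L : E3 →ₗ[ℝ] E3 := b.constr ℝ w
  have hL : ∀ i, L (v i) = w i := by
    intro i
    rw [← hb i]
    exact b.constr_basis ℝ w i
  have hinner : ∀ y z, ⟪L y, L z⟫_ℝ = ⟪y, z⟫_ℝ := by
    intro y z
    rw [← b.sum_repr y, ← b.sum_repr z]
    simp only [map_sum, map_smul, sum_inner, inner_sum, inner_smul_left, inner_smul_right, hb, hL]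
    refine Finset.sum_congr rfl fun i _ => ?_
    congr 1
    refine Finset.sum_congr rfl fun j _ => ?_
    rw [hv j i, hw j i]
  let g0 : E3 →ₗᵢ[ℝ] E3 := L.isometryOfInner hinner
  refine ⟨g0.toLinearIsometryEquiv rfl, ?_⟩
  intro i
  exact hL i

/-- dual vectors -/
def dualVec (x : ℝ) (v : Fin 3 → E3) (i : Fin 3) : E3 :=
  v i - (x / (1 + 2 * x)) • (v 0 + v 1 + v 2)

theorem inner_dualVec {x : ℝ} {v : Fin 3 → E3} (h : Gram x v) (h1 : -1 / 2 < x) (i j : Fin 3) :
    ⟪dualVec x v i, v j⟫_ℝ = if i = j then 1 - x else 0 := by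
  unfold dualVec
  rw [inner_sub_left, inner_smul_left, inner_add_left, inner_add_left, h i j, h 0 j, h 1 j, h 2 j]
  have h3 : (1 + 2 * x) ≠ 0 := by linarith
  have key : x / (1 + 2 * x) * (1 + 2 * x) = x := div_mul_cancel₀ _ h3
  generalize x / (1 + 2 * x) = y at key ⊢
  fin_cases i <;> fin_cases j <;> simp <;>
    first | linear_combination (-1) * key | linear_combination key

theorem exists_coeff {x : ℝ} {v : Fin 3 → E3} (h : Gram x v) (h1 : -1 / 2 < x) (h2 : x < 1)
    (y : E3) : ∃ c : Fin 3 → ℝ, y = ∑ i, c i • v i := by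
  have hcard : Fintype.card (Fin 3) = Module.finrank ℝ E3 := by simp
  let b : Module.Basis (Fin 3) ℝ E3 :=
    basisOfLinearIndependentOfCardEqFinrank (h.indep h1 h2) hcard
  refine ⟨fun i => b.repr y i, ?_⟩
  conv_lhs => rw [← b.sum_repr y]
  simp [b]

theorem inner_dualVec_sum {x : ℝ} {v : Fin 3 → E3} (h : Gram x v) (h1 : -1 / 2 < x)
    (c : Fin 3 → ℝ) (i : Fin 3) : ⟪dualVec x v i, ∑ j, c j • v j⟫_ℝ = (1 - x) * c i := by
  rw [inner_sum]
  simp only [inner_smul_right, inner_dualVec h h1]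
  simp
  ring

theorem sphTriangle_eq {x : ℝ} {v : Fin 3 → E3} (h : Gram x v) (h1 : -1 / 2 < x) (h2 : x < 1) :
    sphTriangle v = {y : S2 | ∀ i, 0 ≤ ⟪dualVec x v i, (y : E3)⟫_ℝ} := by
  ext y
  constructor
  · rintro ⟨c, hc, hy⟩ i
    rw [hy, inner_dualVec_sum h h1]
    exact mul_nonneg (by linarith) (hc i)
  · intro hy
    obtain ⟨c, hc⟩ := exists_coeff h h1 h2 (y : E3)
    refine ⟨c, ?_, hc⟩
    intro i
    have h3 := hy i
    rw [hc, inner_dualVec_sum h h1] at h3
    exact nonneg_of_mul_nonneg_right h3 (by linarith)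

/-- the open cone is in the interior -/
theorem mem_interior_of_pos {x : ℝ} {v : Fin 3 → E3} (h : Gram x v) (h1 : -1 / 2 < x) (h2 : x < 1)
    (y : S2) (hy : ∀ i, 0 < ⟪dualVec x v i, (y : E3)⟫_ℝ) : y ∈ interior (sphTriangle v) := by
  rw [_root_.mem_interior]
  refine ⟨{y : S2 | ∀ i, 0 < ⟪dualVec x v i, (y : E3)⟫_ℝ}, ?_, ?_, hy⟩
  · rw [sphTriangle_eq h h1 h2]
    intro z hz i
    exact (hz i).le
  · rw [Set.ofPred_forall]
    refine isOpen_iInter_of_finite fun i => ?_
    exact isOpen_lt continuous_const (by fun_prop)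

/-- If a nonzero linear functional is nonnegative on one triangle and nonpositive on the other,
then their interiors are disjoint. -/
theorem disjoint_of_sep {A B : Set S2} (c : E3) (hc : c ≠ 0)
    (hA : ∀ y ∈ A, 0 ≤ ⟪c, (y : E3)⟫_ℝ) (hB : ∀ y ∈ B, ⟪c, (y : E3)⟫_ℝ ≤ 0) :
    Disjoint (interior A) (interior B) := by
  rw [Set.disjoint_left]
  intro y hyA hyB
  have hU : IsOpen (interior A ∩ interior B) := isOpen_interior.inter isOpen_interior
  have hyU : y ∈ interior A ∩ interior B := ⟨hyA, hyB⟩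
  have hzero : ∀ z ∈ interior A ∩ interior B, ⟪c, (z : E3)⟫_ℝ = 0 := by
    intro z hz
    exact le_antisymm (hB z (interior_subset hz.2)) (hA z (interior_subset hz.1))
  have hcy : ⟪c, (y : E3)⟫_ℝ = 0 := hzero y hyU
  have hynorm : ‖(y : E3)‖ = 1 := by
    have := y.2
    rwa [mem_sphere_zero_iff_norm] at this
  have hne : ∀ t : ℝ, (y : E3) + t • c ≠ 0 := by
    intro t ht
    have h3 : ⟪(y : E3), (y : E3) + t • c⟫_ℝ = 0 := by rw [ht]; simp
    rw [inner_add_right, inner_smul_right, real_inner_comm c (y : E3), hcy,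
      real_inner_self_eq_norm_sq, hynorm] at h3
    norm_num at h3
  let f : ℝ → S2 := fun t => ⟨(‖(y : E3) + t • c‖)⁻¹ • ((y : E3) + t • c), by
    rw [mem_sphere_zero_iff_norm, norm_smul, norm_inv, norm_norm]
    exact inv_mul_cancel₀ (norm_ne_zero_iff.mpr (hne t))⟩
  have hf : Continuous f := by
    refine Continuous.subtype_mk ?_ _
    have hcont : Continuous fun t : ℝ => (y : E3) + t • c := by fun_prop
    exact (Continuous.inv₀ hcont.norm (fun t => norm_ne_zero_iff.mpr (hne t))).smul hcont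
  have hf0 : f 0 = y := by
    apply Subtype.ext
    simp [f, hynorm]
  have hmem : f ⁻¹' (interior A ∩ interior B) ∈ nhds (0 : ℝ) := by
    apply hf.continuousAt.preimage_mem_nhds
    rw [hf0]
    exact hU.mem_nhds hyU
  rw [Metric.mem_nhds_iff] at hmem
  obtain ⟨ε, hε, hball⟩ := hmem
  have h4 : f (ε / 2) ∈ interior A ∩ interior B := by
    apply hball
    rw [Metric.mem_ball, Real.dist_eq, sub_zero, abs_of_pos (by linarith)]
    linarith
  have h5 := hzero _ h4
  simp only [f] at h5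
  rw [inner_smul_right, inner_add_right, inner_smul_right, hcy, zero_add,
    real_inner_self_eq_norm_sq] at h5
  have h6 : 0 < ‖(y : E3) + (ε / 2) • c‖ := norm_pos_iff.mpr (hne _)
  have h7 : 0 < ‖c‖ := norm_pos_iff.mpr hc
  have h8 : 0 < (‖(y : E3) + (ε / 2) • c‖)⁻¹ * (ε / 2 * ‖c‖ ^ 2) := by positivity
  linarith

theorem disjoint_of_sep' {u v : Fin 3 → E3} (c : E3) (hc : c ≠ 0)
    (hu : ∀ k, 0 ≤ ⟪c, u k⟫_ℝ) (hv : ∀ k, ⟪c, v k⟫_ℝ ≤ 0) :
    Disjoint (interior (sphTriangle u)) (interior (sphTriangle v)) := by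
  apply disjoint_of_sep c hc
  · rintro y ⟨a, ha, hy⟩
    rw [hy, inner_sum]
    refine Finset.sum_nonneg fun i _ => ?_
    rw [inner_smul_right]
    exact mul_nonneg (ha i) (hu i)
  · rintro y ⟨a, ha, hy⟩
    rw [hy, inner_sum]
    refine Finset.sum_nonpos fun i _ => ?_
    rw [inner_smul_right]
    exact mul_nonpos_of_nonneg_of_nonpos (ha i) (hv i)

/-- packings phrased with Gram matrices only -/
def GramPacking (x : ℝ) {ι : Type} (T : ι → Fin 3 → E3) : Prop :=
  (∀ i, Gram x (T i)) ∧ Pairwise fun i j =>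
    Disjoint (interior (sphTriangle (T i))) (interior (sphTriangle (T j)))

theorem Gram.map {x : ℝ} {v : Fin 3 → E3} (h : Gram x v) (g : E3 ≃ₗᵢ[ℝ] E3) :
    Gram x (fun k => g (v k)) := by
  intro i j
  rw [LinearIsometryEquiv.inner_map_map]
  exact h i j

/-- existence of triples with a given Gram matrix. -/
theorem exists_gram {x : ℝ} (h1 : -1 / 2 < x) (h2 : x < 1) : ∃ v : Fin 3 → E3, Gram x v := by
  -- v k = α • e k + β • (1,1,1)
  set α := √(1 - x) with hα
  set β := (-α + √(1 + 2 * x)) / 3 with hβ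
  have hα2 : α ^ 2 = 1 - x := by rw [hα, sq_sqrt (by linarith)]
  have hs : √(1 + 2 * x) ^ 2 = 1 + 2 * x := sq_sqrt (by linarith)
  have hsβ : √(1 + 2 * x) = α + 3 * β := by rw [hβ]; ring
  rw [hsβ] at hs
  refine ⟨fun k => !₂[(if k = 0 then α + β else β), (if k = 1 then α + β else β),
    (if k = 2 then α + β else β)], ?_⟩
  intro i j
  rw [PiLp.inner_apply]
  fin_cases i <;> fin_cases j <;> simp [Fin.sum_univ_three] <;> nlinarith

theorem hasPacking_iff {θ : ℝ} (h1 : π / 3 < θ) (h2 : θ < π) (n : ℕ) :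
    HasPacking θ n ↔ ∃ T : Fin n → Fin 3 → E3, GramPacking (sideCos θ) T := by
  have hx1 := sideCos_lt_one h1 h2
  have hx2 := neg_half_lt_sideCos h1 h2
  constructor
  · rintro ⟨v, hv, g, hg⟩
    rw [isEquilateral_iff h1 h2] at hv
    exact ⟨fun i k => g i (v k), fun i => hv.map (g i), hg⟩
  · rintro ⟨T, hT, hd⟩
    obtain ⟨v, hv⟩ := exists_gram hx2 hx1
    choose g hg using fun i => exists_isometry hv (hT i) hx2 hx1
    refine ⟨v, (isEquilateral_iff h1 h2 v).mpr hv, g, ?_⟩
    intro i j hij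
    have h3 : ∀ i, (fun k => g i (v k)) = T i := fun i => funext (hg i)
    rw [h3 i, h3 j]
    exact hd hij

end

end Pool.Agent.Lib.MP_88b2ed_co
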