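import Pool.Agent.Lib.MP_88b2ed_co.Subdiv

set_option linter.unusedSimpArgs false
set_option maxHeartbeats 4000000

namespace Pool.Agent.Lib.MP_88b2ed_co

open scoped InnerProductSpace
open Real

/-- integer vectors -/
abbrev V3 := ℤ × ℤ × ℤ

def idot (a b : V3) : ℤ := a.1 * b.1 + a.2.1 * b.2.1 + a.2.2 * b.2.2

/-- decode a vector from a natural number -/
def decV (base off n : ℕ) : V3 :=
  ((n % base : ℕ) - (off : ℤ), ((n / base) % base : ℕ) - (off : ℤ),
    ((n / base / base) : ℕ) - (off : ℤ))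

abbrev Tri := V3 × V3 × V3

def decT (n : ℕ × ℕ × ℕ) : Tri :=
  (decV 1000000000 500000000 n.1, decV 1000000000 500000000 n.2.1,
    decV 1000000000 500000000 n.2.2)

def gramOK (A B : ℤ) (t : Tri) : Bool :=
  let L := idot t.1 t.1
  decide (0 < L) && decide (idot t.2.1 t.2.1 = L) && decide (idot t.2.2 t.2.2 = L) &&
    decide (A * idot t.1 t.2.1 = B * L) && decide (A * idot t.1 t.2.2 = B * L) &&
    decide (A * idot t.2.1 t.2.2 = B * L)

def sepOK (s : V3) (t u : Tri) : Bool :=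
  decide (s ≠ (0, 0, 0)) && decide (0 ≤ idot s t.1) && decide (0 ≤ idot s t.2.1) &&
    decide (0 ≤ idot s t.2.2) && decide (idot s u.1 ≤ 0) && decide (idot s u.2.1 ≤ 0) &&
    decide (idot s u.2.2 ≤ 0)

def checkRow (t : Tri) : List Tri → List ℕ → Bool
  | [], _ => true
  | _ :: _, [] => false
  | u :: us, s :: ss => sepOK (decV 256 128 s) t u && checkRow t us ss

def checkAll : List Tri → List (List ℕ) → Bool
  | [], _ => true
  | _ :: _, [] => false
  | t :: ts, r :: rs => checkRow t ts r && checkAll ts rs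

def Sep (t u : Tri) : Prop := ∃ s : V3, sepOK s t u = true

theorem checkRow_spec (t : Tri) : ∀ (us : List Tri) (ss : List ℕ), checkRow t us ss = true →
    ∀ u ∈ us, Sep t u
  | [], _, _ => by simp
  | u :: us, [], h => by simp [checkRow] at h
  | u :: us, s :: ss, h => by
    simp only [checkRow, Bool.and_eq_true] at h
    intro w hw
    rcases List.mem_cons.mp hw with rfl | hw
    · exact ⟨_, h.1⟩
    · exact checkRow_spec t us ss h.2 w hw

theorem checkAll_spec : ∀ (ts : List Tri) (rs : List (List ℕ)), checkAll ts rs = true →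
    ts.Pairwise Sep
  | [], _, _ => List.Pairwise.nil
  | t :: ts, [], h => by simp [checkAll] at h
  | t :: ts, r :: rs, h => by
    simp only [checkAll, Bool.and_eq_true] at h
    exact List.Pairwise.cons (checkRow_spec t ts r h.1) (checkAll_spec ts rs h.2)

noncomputable section

/-- embedding of integer vectors -/
def emb (a : V3) : E3 := !₂[(a.1 : ℝ), (a.2.1 : ℝ), (a.2.2 : ℝ)]

theorem inner_emb (a b : V3) : ⟪emb a, emb b⟫_ℝ = (idot a b : ℝ) := by
  unfold emb idot
  rw [PiLp.inner_apply]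
  simp [Fin.sum_univ_three]
  ring

theorem emb_ne_zero {a : V3} (h : a ≠ (0, 0, 0)) : emb a ≠ 0 := by
  intro h0
  have h1 : ⟪emb a, emb a⟫_ℝ = 0 := by rw [h0]; simp
  rw [inner_emb] at h1
  have h2 : idot a a = 0 := by exact_mod_cast h1
  unfold idot at h2
  obtain ⟨a0, a1, a2⟩ := a
  simp only at h2
  apply h
  have h3 : a0 = 0 := by nlinarith [mul_self_nonneg a0, mul_self_nonneg a1, mul_self_nonneg a2]
  have h4 : a1 = 0 := by nlinarith [mul_self_nonneg a0, mul_self_nonneg a1, mul_self_nonneg a2]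
  have h5 : a2 = 0 := by nlinarith [mul_self_nonneg a0, mul_self_nonneg a1, mul_self_nonneg a2]
  rw [h3, h4, h5]

/-- the vertices of a triangle given by integer vectors, normalised -/
def triVec (t : Tri) : Fin 3 → E3 := fun k =>
  (√(idot t.1 t.1 : ℝ))⁻¹ • emb (![t.1, t.2.1, t.2.2] k)

theorem gram_triVec {A B : ℤ} (hA : 0 < A) {t : Tri} (h : gramOK A B t = true) :
    Gram ((B : ℝ) / A) (triVec t) := by
  simp only [gramOK, Bool.and_eq_true, decide_eq_true_eq] at h
  obtain ⟨⟨⟨⟨⟨h0, h1⟩, h2⟩, h3⟩, h4⟩, h5⟩ := h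
  have hL : (0 : ℝ) < (idot t.1 t.1 : ℝ) := by exact_mod_cast h0
  have hA' : (0 : ℝ) < A := by exact_mod_cast hA
  have hs : (√(idot t.1 t.1 : ℝ))⁻¹ * (√(idot t.1 t.1 : ℝ))⁻¹ = (idot t.1 t.1 : ℝ)⁻¹ := by
    rw [← mul_inv, Real.mul_self_sqrt hL.le]
  have key : ∀ a b : V3, ⟪(√(idot t.1 t.1 : ℝ))⁻¹ • emb a, (√(idot t.1 t.1 : ℝ))⁻¹ • emb b⟫_ℝ =
      (idot a b : ℝ) / (idot t.1 t.1 : ℝ) := by
    intro a b
    rw [inner_smul_left, inner_smul_right, inner_emb]
    simp only [conj_trivial]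
    rw [← mul_assoc, hs]
    field_simp
  have hcomm : ∀ a b : V3, idot a b = idot b a := by
    intro a b; unfold idot; ring
  have q3 : (idot t.1 t.2.1 : ℝ) / (idot t.1 t.1 : ℝ) = (B : ℝ) / A := by
    rw [div_eq_div_iff hL.ne' hA'.ne']
    have : (A : ℝ) * (idot t.1 t.2.1 : ℝ) = B * (idot t.1 t.1 : ℝ) := by exact_mod_cast h3
    linarith
  have q4 : (idot t.1 t.2.2 : ℝ) / (idot t.1 t.1 : ℝ) = (B : ℝ) / A := by
    rw [div_eq_div_iff hL.ne' hA'.ne']
    have : (A : ℝ) * (idot t.1 t.2.2 : ℝ) = B * (idot t.1 t.1 : ℝ) := by exact_mod_cast h4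
    linarith
  have q5 : (idot t.2.1 t.2.2 : ℝ) / (idot t.1 t.1 : ℝ) = (B : ℝ) / A := by
    rw [div_eq_div_iff hL.ne' hA'.ne']
    have : (A : ℝ) * (idot t.2.1 t.2.2 : ℝ) = B * (idot t.1 t.1 : ℝ) := by exact_mod_cast h5
    linarith
  intro i j
  unfold triVec
  rw [key]
  fin_cases i <;> fin_cases j <;> simp [h1, h2, q3, q4, q5, hcomm t.2.1 t.1, hcomm t.2.2 t.1,
    hcomm t.2.2 t.2.1, hL.ne']

theorem disjoint_triVec {t u : Tri} (ht : 0 < idot t.1 t.1) (hu : 0 < idot u.1 u.1)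
    (h : Sep t u) :
    Disjoint (interior (sphTriangle (triVec t))) (interior (sphTriangle (triVec u))) := by
  obtain ⟨s, hs⟩ := h
  simp only [sepOK, Bool.and_eq_true, decide_eq_true_eq] at hs
  obtain ⟨⟨⟨⟨⟨⟨h0, h1⟩, h2⟩, h3⟩, h4⟩, h5⟩, h6⟩ := hs
  have p1 : (0 : ℝ) < (√(idot t.1 t.1 : ℝ))⁻¹ := by
    apply inv_pos.mpr
    apply Real.sqrt_pos.mpr
    exact_mod_cast ht
  have p2 : (0 : ℝ) < (√(idot u.1 u.1 : ℝ))⁻¹ := by
    apply inv_pos.mpr
    apply Real.sqrt_pos.mpr
    exact_mod_cast hu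
  apply disjoint_of_sep' (emb s) (emb_ne_zero h0)
  · intro k
    unfold triVec
    rw [inner_smul_right, inner_emb]
    apply mul_nonneg p1.le
    fin_cases k
    · exact_mod_cast h1
    · exact_mod_cast h2
    · exact_mod_cast h3
  · intro k
    unfold triVec
    rw [inner_smul_right, inner_emb]
    apply mul_nonpos_of_nonneg_of_nonpos p2.le
    fin_cases k
    · exact_mod_cast h4
    · exact_mod_cast h5
    · exact_mod_cast h6

/-- Soundness of the checker. -/
theorem exists_packing_of_check (A B : ℤ) (hA : 0 < A) (n : ℕ) (ts : List Tri)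
    (hn : ts.length = n) (rs : List (List ℕ))
    (h1 : ts.all (gramOK A B) = true) (h2 : checkAll ts rs = true) :
    ∃ T : Fin n → Fin 3 → E3, GramPacking ((B : ℝ) / A) T := by
  subst hn
  rw [List.all_eq_true] at h1
  have h3 := checkAll_spec ts rs h2
  rw [List.pairwise_iff_getElem] at h3
  have hpos : ∀ t ∈ ts, 0 < idot t.1 t.1 := by
    intro t ht
    have h := h1 t ht
    simp only [gramOK, Bool.and_eq_true, decide_eq_true_eq] at h
    exact h.1.1.1.1.1
  refine ⟨fun i => triVec ts[i], fun i => gram_triVec hA (h1 _ (List.getElem_mem _)), ?_⟩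
  intro i j hij
  rcases lt_or_gt_of_ne hij with h | h
  · exact disjoint_triVec (hpos _ (List.getElem_mem _)) (hpos _ (List.getElem_mem _))
      (h3 i j i.2 j.2 h)
  · exact (disjoint_triVec (hpos _ (List.getElem_mem _)) (hpos _ (List.getElem_mem _))
      (h3 j i j.2 i.2 h)).symm

end

end Pool.Agent.Lib.MP_88b2ed_co
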