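import Pool.Agent.Lib.MP_88b2ed_co.Check

set_option maxRecDepth 100000
set_option maxHeartbeats 4000000

namespace Pool.Agent.Lib.MP_88b2ed_co

/-- 11 equilateral triangles with cosine of the side 15/51 (encoded vertices) -/
def tris11 : List (ℕ × ℕ × ℕ) := [
    (501459097502068549497478309, 497333479501176157497932851, 500082649498082731496986027),
    (499758889500528619500126343, 499538863499899909500361759, 499506481500049957499672161),
    (502431963501384391506573845, 494790411498273877504574615, 496958865506106655502122895),
    (501089089502263517497462743, 499274323503299663501154519, 497086267501105109498257533),
    (502104315506184147497114229, 503575155498420009494023263, 506952705500738235501454095),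
    (500009499500780059500898787, 500229339501070093499532341, 501139773500248189500236051),
    (499675383499868809501749371, 500832279498532219500579497, 498755301498739177500209609),
    (496794883499337847501429411, 499072777496694991499014297, 497594659500321253497379777),
    (502288345498930147497475879, 498201655497836245497800815, 500959135496654851500801457),
    (505959639502438303503091847, 503634807494311081502333777, 499006737499625263507063649),
    (500298757499898449499684275, 500152531499590367500090475, 500404765500047855500182005)]

/-- separating vectors -/
def seps11 : List (List ℕ) := [
    [8618621, 8421503, 8484986, 7635065, 8421247, 8421503, 8684669, 8356734, 8421503, 8356223],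
    [7962487, 8158597, 8355968, 8355968, 8290943, 8359043, 8356224, 8355967, 8355968],
    [8355714, 8355969, 7830149, 8356736, 8487042, 8421761, 7902079, 8355969],
    [8290431, 7831676, 8421760, 8422273, 8421760, 8356223, 8356224],
    [8616565, 8487296, 8487040, 8422271, 8487038, 8423294],
    [8421760, 8487040, 8421760, 8422780, 8357758],
    [8682887, 8356228, 7830142, 8290435],
    [8028293, 8355967, 8355968],
    [8355711, 8158845],
    [8028556],
    []]

theorem packing11 : ∃ T : Fin 11 → Fin 3 → E3, GramPacking (((15 : ℤ) : ℝ) / ((51 : ℤ) : ℝ)) T :=
  exists_packing_of_check 51 (15) (by decide) 11 (tris11.map decT) (by decide +kernel) seps11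
    (by decide +kernel) (by decide +kernel)

end Pool.Agent.Lib.MP_88b2ed_co
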