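import Pool.Agent.Lib.MP_88b2ed_co.Check

set_option maxRecDepth 100000
set_option maxHeartbeats 4000000

namespace Pool.Agent.Lib.MP_88b2ed_co

/-- 5 equilateral triangles with cosine of the side -59/902 (encoded vertices) -/
def tris5 : List (ℕ × ℕ × ℕ) := [
    (498411794502952845501690739, 501314727498557882503208127, 496854819497950189500080010),
    (503179763516688605524741622, 478625035517634198488471157, 522169774513957009485355161),
    (498405895498261014492880161, 498904034493003569502471065, 507384859499049685499095506),
    (512119387507657622495531067, 507950879488023865504341174, 499942370506157749513695579),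
    (489261973473176037491828418, 497675621511543590472378491, 473165626510292089508694495)]

/-- separating vectors -/
def seps5 : List (List ℕ) := [
    [8027012, 8356225, 7830402, 8551816],
    [8421760, 8095357, 8619394],
    [8355193, 8814207],
    [8487041],
    []]

theorem packing5 : ∃ T : Fin 5 → Fin 3 → E3, GramPacking (((-59 : ℤ) : ℝ) / ((902 : ℤ) : ℝ)) T :=
  exists_packing_of_check 902 (-59) (by decide) 5 (tris5.map decT) (by decide +kernel) seps5
    (by decide +kernel) (by decide +kernel)

end Pool.Agent.Lib.MP_88b2ed_co
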