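import Pool.Agent.Lib.MP_88b2ed_co.Check

namespace Pool.Agent.Lib.MP_88b2ed_co

/-- the faces of the regular tetrahedron -/
def tris4 : List Tri := [((1, -1, -1), (-1, 1, -1), (-1, -1, 1)),
    ((1, 1, 1), (-1, 1, -1), (-1, -1, 1)),
    ((1, 1, 1), (1, -1, -1), (-1, -1, 1)),
    ((1, 1, 1), (1, -1, -1), (-1, 1, -1))]

def seps4 : List (List ℕ) := [[8289920, 8290430, 8420990],
    [8422014, 8552574],
    [8552064],
    []]

theorem packing4 : ∃ T : Fin 4 → Fin 3 → E3, GramPacking (((-1 : ℤ) : ℝ) / ((3 : ℤ) : ℝ)) T :=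
  exists_packing_of_check 3 (-1) (by decide) 4 tris4 (by decide +kernel) seps4
    (by decide +kernel) (by decide +kernel)

/-- the octants -/
def tris8 : List Tri := [((1, 0, 0), (0, 1, 0), (0, 0, 1)),
    ((1, 0, 0), (0, 1, 0), (0, 0, -1)),
    ((1, 0, 0), (0, -1, 0), (0, 0, 1)),
    ((1, 0, 0), (0, -1, 0), (0, 0, -1)),
    ((-1, 0, 0), (0, 1, 0), (0, 0, 1)),
    ((-1, 0, 0), (0, 1, 0), (0, 0, -1)),
    ((-1, 0, 0), (0, -1, 0), (0, 0, 1)),
    ((-1, 0, 0), (0, -1, 0), (0, 0, -1))]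

def seps8 : List (List ℕ) := [[8552576, 8422016, 8553088, 8421506, 8552578, 8422018, 8553090],
    [8290944, 8422016, 8290434, 8421506, 8290946, 8422018],
    [8552576, 8420994, 8552066, 8421506, 8552578],
    [8289922, 8420994, 8290434, 8421506],
    [8552576, 8422016, 8553088],
    [8290944, 8422016],
    [8552576],
    []]

theorem packing8 : ∃ T : Fin 8 → Fin 3 → E3, GramPacking (((0 : ℤ) : ℝ) / ((1 : ℤ) : ℝ)) T :=
  exists_packing_of_check 1 0 (by decide) 8 tris8 (by decide +kernel) seps8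
    (by decide +kernel) (by decide +kernel)

end Pool.Agent.Lib.MP_88b2ed_co
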