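import Mathlib

/-!
# Packings of congruent equilateral spherical triangles: definitions
-/

namespace Pool.Agent.Lib.MP_88b2ed_co

open scoped InnerProductSpace

noncomputable section

/-- Euclidean three-space. -/
abbrev E3 := EuclideanSpace ℝ (Fin 3)

/-- The unit sphere of Euclidean three-space. -/
abbrev S2 := Metric.sphere (0 : E3) 1

/-- The closed spherical triangle with vertices `v 0, v 1, v 2` (bounded by arcs of great circles):
the points of the unit sphere which are combinations of the vertices with nonnegative
coefficients. -/
def sphTriangle (v : Fin 3 → E3) : Set S2 :=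
  {x | ∃ c : Fin 3 → ℝ, (∀ i, 0 ≤ c i) ∧ (x : E3) = ∑ i, c i • v i}

/-- The interior angle at `p` of the spherical triangle with vertices `p, q, r`: the angle between
the directions at `p` of the great-circle arcs `pq` and `pr`, that is between the projections
of `q` and `r` to the tangent plane of the sphere at `p`. -/
def sphAngle (p q r : E3) : ℝ :=
  InnerProductGeometry.angle (q - ⟪p, q⟫_ℝ • p) (r - ⟪p, r⟫_ℝ • p)

/-- `v` lists the vertices of an equilateral spherical triangle whose three interior angles are
all equal to `θ`. The side joining two vertices is a great-circle arc whose length is the angle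
between the two vertices. -/
structure IsEquilateral (θ : ℝ) (v : Fin 3 → E3) : Prop where
  unit : ∀ i, ‖v i‖ = 1
  indep : LinearIndependent ℝ v
  sides : ∀ i j k l, i ≠ j → k ≠ l →
    InnerProductGeometry.angle (v i) (v j) = InnerProductGeometry.angle (v k) (v l)
  angles : ∀ i j k, i ≠ j → i ≠ k → j ≠ k → sphAngle (v i) (v j) (v k) = θ

/-- There is a packing of `n` copies of `T_θ`: `n` images of the equilateral triangle `T_θ` (with
vertices `v`) under isometries `g i` of the sphere (elements of the orthogonal group), whose
interiors are pairwise disjoint. -/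
def HasPacking (θ : ℝ) (n : ℕ) : Prop :=
  ∃ v : Fin 3 → E3, IsEquilateral θ v ∧
    ∃ g : Fin n → (E3 ≃ₗᵢ[ℝ] E3), Pairwise fun i j =>
      Disjoint (interior (sphTriangle fun k => g i (v k)))
        (interior (sphTriangle fun k => g j (v k)))

/-- `N(θ)`, the largest number of triangles in a packing of copies of `T_θ`. -/
def maxNumber (θ : ℝ) : ℕ := sSup {n | HasPacking θ n}

/-- The optimal density `δ(θ) = N(θ) (3θ - π) / (4π)`. -/
def density (θ : ℝ) : ℝ := maxNumber θ * (3 * θ - Real.pi) / (4 * Real.pi)

/-- The minimal uncovered area `U(θ) = 4π - N(θ) (3θ - π)`. -/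
def uncovered (θ : ℝ) : ℝ := 4 * Real.pi - maxNumber θ * (3 * θ - Real.pi)

end

end Pool.Agent.Lib.MP_88b2ed_co
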