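import Pool.Agent.Lib.MP_88b2ed_co.Upper

set_option linter.unusedSimpArgs false

namespace Pool.Agent.Lib.MP_88b2ed_co

open scoped InnerProductSpace
open Real MeasureTheory

noncomputable section

theorem openCone_map {x : ℝ} (v : Fin 3 → E3) (g : E3 ≃ₗᵢ[ℝ] E3) :
    openCone x (fun k => g (v k)) = g.symm ⁻¹' openCone x v := by
  ext y
  have h : ∀ i, dualVec x (fun k => g (v k)) i = g (dualVec x v i) := by
    intro i
    simp [dualVec, map_sub, map_smul, map_add]
  have h2 : ∀ i, ⟪g (dualVec x v i), y⟫_ℝ = ⟪dualVec x v i, g.symm y⟫_ℝ := by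
    intro i
    conv_lhs => rw [← g.apply_symm_apply y]
    rw [LinearIsometryEquiv.inner_map_map]
  simp only [openCone, Set.mem_ofPred_eq, Set.mem_preimage, h, h2]

/-- packings are finite -/
theorem bddAbove_gramPacking {x : ℝ} (h1 : -1 / 2 < x) (h2 : x < 1) :
    ∃ M : ℕ, ∀ n : ℕ, ∀ T : Fin n → Fin 3 → E3, GramPacking x T → n ≤ M := by
  obtain ⟨v, hv⟩ := exists_gram h1 h2
  set A : Set E3 := openCone x v ∩ Metric.ball 0 1 with hA
  have hAopen : IsOpen A := (openCone_isOpen x v).inter Metric.isOpen_ball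
  have hAne : A.Nonempty := by
    have hp := add_smul_mem_openCone hv h1 h2 0 one_pos
    set p := v 0 + (1 : ℝ) • (v 0 + v 1 + v 2) with hpdef
    have hne := ne_zero_of_mem_openCone hp
    have hpp : 0 < ‖p‖ := norm_pos_iff.mpr hne
    refine ⟨(2 * ‖p‖)⁻¹ • p, smul_mem_openCone hp (inv_pos.mpr (by positivity)), ?_⟩
    have h5 : ‖(2 * ‖p‖)⁻¹ • p‖ = 1 / 2 := by
      rw [norm_smul, norm_inv, Real.norm_of_nonneg (by positivity)]
      field_simp
    rw [mem_ball_zero_iff, h5]
    norm_num
  have hApos : 0 < volume A := hAopen.measure_pos volume hAne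
  have hball : volume (Metric.ball (0 : E3) 1) < ⊤ := measure_ball_lt_top
  have hAfin : volume A ≠ ⊤ := ne_top_of_le_ne_top hball.ne (measure_mono Set.inter_subset_right)
  obtain ⟨M, hM⟩ := ENNReal.exists_nat_mul_gt hApos.ne' hball.ne
  refine ⟨M, ?_⟩
  intro n T hT
  by_contra hcon
  push Not at hcon
  choose g hg using fun i => exists_isometry hv (hT.1 i) h1 h2
  set B : Fin n → Set E3 := fun i => (g i).symm ⁻¹' A with hB
  have hBsub : ∀ i, B i ⊆ openCone x (T i) := by
    intro i y hy
    have h3 : (fun k => g i (v k)) = T i := funext (hg i)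
    rw [← h3, openCone_map]
    exact hy.1
  have hBdisj : Pairwise (fun i j => Disjoint (B i) (B j)) := by
    intro i j hij
    exact (openCone_disjoint (hT.1 i) (hT.1 j) h1 h2 (hT.2 hij)).mono (hBsub i) (hBsub j)
  have hBvol : ∀ i, volume (B i) = volume A := by
    intro i
    exact (g i).symm.measurePreserving.measure_preimage hAopen.measurableSet.nullMeasurableSet
  have hBball : ∀ i, B i ⊆ Metric.ball 0 1 := by
    intro i y hy
    have := hy.2
    rw [mem_ball_zero_iff] at this ⊢
    rwa [LinearIsometryEquiv.norm_map] at this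
  have hBmeas : ∀ i, MeasurableSet (B i) := by
    intro i
    exact (hAopen.preimage (g i).symm.continuous).measurableSet
  have hsum : volume (⋃ i, B i) = n * volume A := by
    rw [measure_iUnion hBdisj hBmeas, tsum_fintype]
    simp [hBvol]
  have hle : n * volume A ≤ volume (Metric.ball (0 : E3) 1) := by
    rw [← hsum]
    exact measure_mono (Set.iUnion_subset hBball)
  have hlt : (M : ENNReal) * volume A ≤ n * volume A := by
    gcongr
  exact absurd (hM.trans_le (hlt.trans hle)) (lt_irrefl _)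

theorem bddAbove_hasPacking {θ : ℝ} (h1 : π / 3 < θ) (h2 : θ < π) :
    BddAbove {n | HasPacking θ n} := by
  obtain ⟨M, hM⟩ := bddAbove_gramPacking (neg_half_lt_sideCos h1 h2) (sideCos_lt_one h1 h2)
  refine ⟨M, ?_⟩
  intro n hn
  obtain ⟨T, hT⟩ := (hasPacking_iff h1 h2 n).mp hn
  exact hM n T hT

theorem le_maxNumber {θ : ℝ} (h1 : π / 3 < θ) (h2 : θ < π) {n : ℕ} (h : HasPacking θ n) :
    n ≤ maxNumber θ := le_csSup (bddAbove_hasPacking h1 h2) h

/-- `N(θ) = 2` for `2π/3 < θ < π`. -/
theorem maxNumber_eq_two {θ : ℝ} (h1 : 2 * π / 3 < θ) (h2 : θ < π) : maxNumber θ = 2 := by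
  have h0 : π / 3 < θ := by linarith [Real.pi_pos]
  have hc : cos θ < -1 / 2 := by
    have h3 : cos (2 * π / 3) = -1 / 2 := by
      have : 2 * π / 3 = π - π / 3 := by ring
      rw [this, Real.cos_pi_sub, Real.cos_pi_div_three]
      norm_num
    rw [← h3]
    exact Real.cos_lt_cos_of_nonneg_of_le_pi (by positivity) h2.le h1
  have hx : sideCos θ < -1 / 3 := by
    unfold sideCos
    rw [div_lt_div_iff₀ (by linarith) (by norm_num)]
    linarith
  apply le_antisymm
  · apply csSup_le'
    intro n hn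
    by_contra hcon
    push Not at hcon
    obtain ⟨T, hT⟩ := (hasPacking_iff h0 h2 n).mp hn
    let a : Fin n := ⟨0, by omega⟩
    let b : Fin n := ⟨1, by omega⟩
    let c : Fin n := ⟨2, by omega⟩
    have hab : a ≠ b := by simp [a, b]
    have hac : a ≠ c := by simp [a, c]
    have hbc : b ≠ c := by simp [b, c]
    exact no_three (neg_half_lt_sideCos h0 h2) hx (hT.1 a) (hT.1 b) (hT.1 c) (hT.2 hab)
      (hT.2 hac) (hT.2 hbc)
  · apply le_maxNumber h0 h2
    rw [hasPacking_iff h0 h2]
    exact two_pack (neg_half_lt_sideCos h0 h2) (sideCos_lt_one h0 h2)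

end

end Pool.Agent.Lib.MP_88b2ed_co
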