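import Pool.Agent.Lib.MP_88b2ed_co.Recursion
import Pool.Agent.Lib.MP_88b2ed_co.DataSmall

set_option linter.unusedSimpArgs false
set_option maxHeartbeats 4000000

namespace Pool.Agent.Lib.MP_88b2ed_co

open scoped InnerProductSpace
open Real

noncomputable section

theorem pk_of_packing {A B : ℤ} {n : ℕ} {τ : ℝ} (hτ : ((B : ℤ) : ℝ) / ((A : ℤ) : ℝ) = (1 - τ) / (1 + τ))
    (h : ∃ T : Fin n → Fin 3 → E3, GramPacking (((B : ℤ) : ℝ) / ((A : ℤ) : ℝ)) T) : Pk τ n := by
  unfold Pk
  rw [← hτ]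
  exact h

theorem pk4 : Pk 2 4 := pk_of_packing (by norm_num) packing4
theorem pk5 : Pk (961 / 843) 5 := pk_of_packing (by norm_num) packing5
theorem pk8 : Pk 1 8 := pk_of_packing (by norm_num) packing8
theorem pk11 : Pk (6 / 11) 11 := pk_of_packing (by norm_num) packing11
theorem pk20 : Pk (50 / 137) 20 := pk_of_packing (by norm_num) packing20
theorem pk33 : Pk (49 / 257) 33 := pk_of_packing (by norm_num) packing33
theorem pk46 : Pk (8 / 59) 46 := pk_of_packing (by norm_num) packing46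
theorem pk64 : Pk (1 / 11) 64 := pk_of_packing (by norm_num) packing64
theorem pk96 : Pk (49 / 787) 96 := pk_of_packing (by norm_num) packing96

theorem sqrt3_lb : (1.732 : ℝ) ≤ √3 := by
  apply Real.le_sqrt_of_sq_le
  norm_num

/-- main numerical estimate: enough triangles -/
theorem numeric {n : ℕ} {a τ : ℝ} (h1 : a ≤ τ) (h2 : τ ≤ 3) (h0 : 0 ≤ a)
    (h : 6.3714 ≤ n * (1.732 * (a * (1 - a / 6)))) : 507 / 250 * π ≤ n * flow τ := by
  have h3 := flow_mono h1 h2
  have h4 : 1.732 * (a * (1 - a / 6)) ≤ flow a := by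
    unfold flow
    rw [mul_assoc]
    apply mul_le_mul_of_nonneg_right sqrt3_lb
    apply mul_nonneg h0
    linarith
  have h5 : (n : ℝ) * (1.732 * (a * (1 - a / 6))) ≤ n * flow τ := by
    apply mul_le_mul_of_nonneg_left _ (Nat.cast_nonneg n)
    linarith
  have := Real.pi_lt_d6
  linarith

/-- For all parameters at most 2 there is a dense enough packing. -/
theorem exists_dense {τ : ℝ} (h0 : 0 < τ) (h2 : τ ≤ 2) :
    ∃ n, Pk τ n ∧ 507 / 250 * π ≤ n * flow τ := by
  by_cases c1 : 961 / 843 < τ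
  · exact ⟨4, pk_mono h0 h2 (by norm_num) pk4, numeric c1.le (by linarith) (by norm_num) (by norm_num)⟩
  push Not at c1
  by_cases c2 : 1 < τ
  · exact ⟨5, pk_mono h0 c1 (by norm_num) pk5, numeric c2.le (by linarith) (by norm_num) (by norm_num)⟩
  push Not at c2
  by_cases c3 : 6 / 11 < τ
  · exact ⟨8, pk_mono h0 c2 (by norm_num) pk8, numeric c3.le (by linarith) (by norm_num) (by norm_num)⟩
  push Not at c3
  by_cases c4 : 50 / 137 < τ
  · exact ⟨11, pk_mono h0 c3 (by norm_num) pk11, numeric c4.le (by linarith) (by norm_num) (by norm_num)⟩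
  push Not at c4
  by_cases c5 : 49 / 257 < τ
  · exact ⟨20, pk_mono h0 c4 (by norm_num) pk20, numeric c5.le (by linarith) (by norm_num) (by norm_num)⟩
  push Not at c5
  -- the recursive range
  obtain ⟨k, hk1, hk2⟩ : ∃ k : ℕ, 49 / 257 * (1 - 49 / 257) / 4 < 4 ^ k * τ ∧
      (4 ^ k * τ ≤ 49 / 257 * (1 - 49 / 257) ∨ k = 0) := by
    by_cases hbig : 49 / 257 * (1 - 49 / 257) / 4 < τ
    · exact ⟨0, by simpa using hbig, Or.inr rfl⟩
    · push Not at hbig
      have hx : ∃ k : ℕ, 49 / 257 * (1 - 49 / 257) / 4 < 4 ^ k * τ := by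
        obtain ⟨k, hk⟩ := pow_unbounded_of_one_lt (49 / 257 * (1 - 49 / 257) / 4 / τ)
          (show (1 : ℝ) < 4 by norm_num)
        refine ⟨k, ?_⟩
        rwa [div_lt_iff₀ h0] at hk
      classical
      refine ⟨Nat.find hx, Nat.find_spec hx, Or.inl ?_⟩
      have hne : Nat.find hx ≠ 0 := by
        intro h
        have := Nat.find_spec hx
        rw [h] at this
        simp only [pow_zero, one_mul] at this
        linarith
      obtain ⟨m, hm⟩ := Nat.exists_eq_succ_of_ne_zero hne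
      have h3 := Nat.find_min hx (m := m) (by omega)
      push Not at h3
      rw [hm, pow_succ]
      linarith
  have hk : (1 : ℝ) ≤ 4 ^ k := one_le_pow₀ (by norm_num)
  set t := 4 ^ k * τ with ht
  have hτt : τ ≤ t := by rw [ht]; nlinarith
  -- reduction of the numerical estimate to `t`
  have red : ∀ {n : ℕ} {a : ℝ}, 0 ≤ a → a ≤ t → t ≤ 3 → 6.3714 ≤ n * (1.732 * (a * (1 - a / 6))) →
      507 / 250 * π ≤ ((n * 4 ^ k : ℕ) : ℝ) * flow τ := by
    intro n a ha hat ht3 hn
    have h3 := numeric hat ht3 ha hn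
    have h4 : (n : ℝ) * flow t ≤ ((n * 4 ^ k : ℕ) : ℝ) * flow τ := by
      have h5 : flow t ≤ 4 ^ k * flow τ := by
        unfold flow
        have h6 : 4 ^ k * (√3 * τ * (1 - τ / 6)) = √3 * t * (1 - τ / 6) := by rw [ht]; ring
        rw [h6]
        apply mul_le_mul_of_nonneg_left _ (by positivity)
        linarith
      push_cast
      rw [mul_assoc]
      exact mul_le_mul_of_nonneg_left h5 (Nat.cast_nonneg n)
    linarith
  have ht3 : t ≤ 3 := by
    rcases hk2 with h | h
    · norm_num at h; linarith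
    · rw [ht, h]; norm_num; linarith
  by_cases d1 : 8 / 59 * (1 - 8 / 59) < t
  · refine ⟨33 * 4 ^ k, ?_, red (by norm_num) d1.le ht3 (by norm_num)⟩
    rcases hk2 with h | h
    · exact pk_iter' (by norm_num) (by norm_num) pk33 k h0 h
    · rw [h]; simpa using pk_mono h0 c5 (by norm_num) pk33
  push Not at d1
  by_cases d2 : 1 / 11 * (1 - 1 / 11) < t
  · exact ⟨46 * 4 ^ k, pk_iter' (by norm_num) (by norm_num) pk46 k h0 d1,
      red (by norm_num) d2.le ht3 (by norm_num)⟩
  push Not at d2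
  by_cases d3 : 49 / 787 * (1 - 49 / 787) < t
  · exact ⟨64 * 4 ^ k, pk_iter' (by norm_num) (by norm_num) pk64 k h0 d2,
      red (by norm_num) d3.le ht3 (by norm_num)⟩
  push Not at d3
  exact ⟨96 * 4 ^ k, pk_iter' (by norm_num) (by norm_num) pk96 k h0 d3,
      red (by norm_num) hk1.le ht3 (by norm_num)⟩

end

end Pool.Agent.Lib.MP_88b2ed_co
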