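import Pool.Agent.Lib.MP_88b2ed_co.Check
import Pool.Agent.Lib.MP_88b2ed_co.Data5
import Pool.Agent.Lib.MP_88b2ed_co.Data11
import Pool.Agent.Lib.MP_88b2ed_co.Data20
import Pool.Agent.Lib.MP_88b2ed_co.Data33
import Pool.Agent.Lib.MP_88b2ed_co.Data46
import Pool.Agent.Lib.MP_88b2ed_co.Data64
import Pool.Agent.Lib.MP_88b2ed_co.Data96

set_option linter.unusedSimpArgs false
set_option maxHeartbeats 4000000

namespace Pool.Agent.Lib.MP_88b2ed_co

open scoped InnerProductSpace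
open Real

noncomputable section

/-- packings in terms of the parameter `τ = 1 - 2 cos θ` -/
def Pk (τ : ℝ) (n : ℕ) : Prop := ∃ T : Fin n → Fin 3 → E3, GramPacking ((1 - τ) / (1 + τ)) T

theorem hasPacking_iff_pk {θ : ℝ} (h1 : π / 3 < θ) (h2 : θ < π) (n : ℕ) :
    HasPacking θ n ↔ Pk (1 - 2 * cos θ) n := by
  rw [hasPacking_iff h1 h2]
  unfold Pk
  have hc := cos_lt_half h1 h2
  have : sideCos θ = (1 - (1 - 2 * cos θ)) / (1 + (1 - 2 * cos θ)) := by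
    unfold sideCos
    rw [div_eq_div_iff (by linarith) (by linarith)]
    ring
  rw [this]

theorem pk_mono {τ σ : ℝ} (h0 : 0 < σ) (h1 : σ ≤ τ) (h2 : τ < 3) {n : ℕ} (h : Pk τ n) :
    Pk σ n := by
  obtain ⟨T, hT⟩ := h
  have hτ : 0 < τ := by linarith
  refine exists_shrink ?_ ?_ ?_ ?_ T hT
  · rw [lt_div_iff₀ (by linarith)]; linarith
  · rw [div_lt_one (by linarith)]; linarith
  · rw [div_le_div_iff₀ (by linarith) (by linarith)]; nlinarith
  · rw [div_lt_one (by linarith)]; linarith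

theorem pk_step {τ : ℝ} (h0 : 0 < τ) (h1 : τ ≤ 1) {n : ℕ} (h : Pk τ n) :
    Pk (τ / 4 * (1 - 3 * τ / 4)) (n * 4) := by
  obtain ⟨T, hT⟩ := h
  set σ := τ / 4 * (1 - 3 * τ / 4) with hσ
  have hσ0 : 0 < σ := by rw [hσ]; apply mul_pos <;> linarith
  have hσ1 : σ ≤ τ / 4 := by rw [hσ]; nlinarith
  have p1 : 0 < 1 + τ := by linarith
  have p2 : 0 < 1 + σ := by linarith
  refine exists_subdiv ?_ ?_ ?_ ?_ ?_ ?_ ?_ T hT
  · rw [lt_div_iff₀ (by linarith)]; linarith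
  · rw [div_lt_one (by linarith)]; linarith
  · rw [div_le_div_iff₀ (by linarith) (by linarith)]; nlinarith
  · rw [div_lt_one (by linarith)]; linarith
  · apply div_nonneg <;> linarith
  · have e1 : 1 + (1 - σ) / (1 + σ) = 2 / (1 + σ) := by field_simp; ring
    have e2 : 1 + (1 - τ) / (1 + τ) = 2 / (1 + τ) := by field_simp; ring
    have e3 : 3 + 5 * ((1 - τ) / (1 + τ)) = (8 - 2 * τ) / (1 + τ) := by field_simp; ring
    rw [e1, e2, e3]
    have key : 4 * (1 + σ) ≤ (1 - σ) ^ 2 * ((4 - τ) * (1 + τ)) := by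
      have h3 : (1 - σ) ^ 2 * ((4 - τ) * (1 + τ)) - 4 * (1 + σ) =
          τ ^ 3 * (23 / 16 - 37 / 64 * τ + 51 / 256 * τ ^ 2 - 9 / 256 * τ ^ 3) := by
        rw [hσ]; ring
      have h4 : 0 ≤ 23 / 16 - 37 / 64 * τ + 51 / 256 * τ ^ 2 - 9 / 256 * τ ^ 3 := by
        have : τ ^ 3 ≤ 1 := pow_le_one₀ h0.le h1
        nlinarith [sq_nonneg τ]
      have h5 : 0 ≤ τ ^ 3 * (23 / 16 - 37 / 64 * τ + 51 / 256 * τ ^ 2 - 9 / 256 * τ ^ 3) :=
        mul_nonneg (by positivity) h4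
      linarith
    have e4 : 2 / (1 + σ) * (2 / (1 + τ)) ^ 2 = 8 * (1 + σ) / ((1 + σ) ^ 2 * (1 + τ) ^ 2) := by
      field_simp
      ring
    have e5 : ((1 - σ) / (1 + σ)) ^ 2 * ((8 - 2 * τ) / (1 + τ)) =
        2 * ((1 - σ) ^ 2 * ((4 - τ) * (1 + τ))) / ((1 + σ) ^ 2 * (1 + τ) ^ 2) := by
      field_simp
      ring
    rw [e4, e5]
    apply div_le_div_of_nonneg_right _ (by positivity)
    linarith
  · have e1 : 1 + 3 * ((1 - τ) / (1 + τ)) = (4 - 2 * τ) * (1 + σ) / ((1 + σ) * (1 + τ)) := by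
      field_simp; ring
    have e2 : (1 - σ) / (1 + σ) * (2 + 2 * ((1 - τ) / (1 + τ))) =
        4 * (1 - σ) / ((1 + σ) * (1 + τ)) := by
      field_simp; ring
    rw [e1, e2]
    apply div_le_div_of_nonneg_right _ (by positivity)
    nlinarith

theorem pk_iter {τ : ℝ} (h0 : 0 < τ) (h1 : τ ≤ 1 / 2) {n : ℕ} (h : Pk τ n) (k : ℕ) :
    ∃ σ, Pk σ (n * 4 ^ k) ∧ 0 < σ ∧ 4 ^ k * σ ≤ τ ∧ τ * (1 - τ * (1 - (1 / 4) ^ k)) ≤ 4 ^ k * σ := by
  induction k with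
  | zero => exact ⟨τ, by simpa using h, h0, by simp, by simp⟩
  | succ k ih =>
    obtain ⟨σ, h2, h3, h4, h5⟩ := ih
    have hk : (1 : ℝ) ≤ 4 ^ k := one_le_pow₀ (by norm_num)
    have hσ : σ ≤ τ := by nlinarith
    refine ⟨σ / 4 * (1 - 3 * σ / 4), ?_, ?_, ?_, ?_⟩
    · have := pk_step h3 (by linarith) h2
      rwa [mul_assoc, ← pow_succ] at this
    · apply mul_pos <;> linarith
    · have : (4 : ℝ) ^ (k + 1) * (σ / 4 * (1 - 3 * σ / 4)) = 4 ^ k * σ * (1 - 3 * σ / 4) := by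
        rw [pow_succ]; ring
      rw [this]
      have h6 : 0 ≤ 4 ^ k * σ := by positivity
      nlinarith
    · have e1 : (4 : ℝ) ^ (k + 1) * (σ / 4 * (1 - 3 * σ / 4)) =
          4 ^ k * σ - 3 / 4 * (4 ^ k * σ) * σ := by
        rw [pow_succ]; ring
      have e2 : σ = (1 / 4) ^ k * (4 ^ k * σ) := by
        rw [← mul_assoc, ← mul_pow]; norm_num
      have hq : (0 : ℝ) < (1 / 4) ^ k := by positivity
      have h6 : 0 ≤ 4 ^ k * σ := by positivity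
      have h7 : (4 ^ k * σ) * σ ≤ (1 / 4) ^ k * τ ^ 2 := by
        have : (4 ^ k * σ) * σ = (1 / 4) ^ k * (4 ^ k * σ) ^ 2 := by
          conv_lhs => rw [e2]
          rw [← e2]
          conv_rhs => rw [sq, ← mul_assoc, ← e2]
          ring
        rw [this]
        apply mul_le_mul_of_nonneg_left _ hq.le
        exact pow_le_pow_left₀ h6 h4 2
      rw [e1]
      have e3 : ((1 : ℝ) / 4) ^ (k + 1) = (1 / 4) ^ k / 4 := by rw [pow_succ]; ring
      rw [e3]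
      nlinarith

theorem pk_iter' {τ : ℝ} (h0 : 0 < τ) (h1 : τ ≤ 1 / 2) {n : ℕ} (h : Pk τ n) (k : ℕ) {t : ℝ}
    (ht0 : 0 < t) (ht : 4 ^ k * t ≤ τ * (1 - τ)) : Pk t (n * 4 ^ k) := by
  obtain ⟨σ, h2, h3, h4, h5⟩ := pk_iter h0 h1 h k
  have hk : (1 : ℝ) ≤ 4 ^ k := one_le_pow₀ (by norm_num)
  refine pk_mono ht0 ?_ ?_ h2
  · have hq : (0 : ℝ) < (1 / 4) ^ k := by positivity
    have h6 : 4 ^ k * t ≤ 4 ^ k * σ := by
      have : 0 ≤ τ * (τ * (1 / 4) ^ k) := by positivity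
      nlinarith
    exact le_of_mul_le_mul_left h6 (by positivity)
  · have : σ ≤ τ := by nlinarith
    linarith

/-- lower bound for the area -/
def flow (τ : ℝ) : ℝ := √3 * τ * (1 - τ / 6)

theorem flow_mono {σ τ : ℝ} (h1 : σ ≤ τ) (h2 : τ ≤ 3) : flow σ ≤ flow τ := by
  unfold flow
  have h3 : (0 : ℝ) ≤ √3 := sqrt_nonneg _
  have h4 : σ * (1 - σ / 6) ≤ τ * (1 - τ / 6) := by nlinarith
  nlinarith

theorem flow_le {θ : ℝ} (h1 : π / 3 ≤ θ) (h2 : θ ≤ π) : flow (1 - 2 * cos θ) ≤ 3 * θ - π := by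
  set e := θ - π / 3 with he
  have he0 : 0 ≤ e := by linarith
  have hs3 : (0 : ℝ) < √3 := sqrt_pos.mpr (by norm_num)
  have hs : √3 ^ 2 = 3 := sq_sqrt (by norm_num)
  set τ := 1 - 2 * cos θ with hτ
  have hτe : τ ≤ e ^ 2 / 2 + √3 * e := by
    have h3 : θ = π / 3 + e := by rw [he]; ring
    have h4 : τ = 1 - cos e + √3 * sin e := by
      rw [hτ, h3, Real.cos_add, Real.cos_pi_div_three, Real.sin_pi_div_three]
      ring
    rw [h4]
    have h5 := Real.one_sub_sq_div_two_le_cos (x := e)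
    have h6 := Real.sin_le he0
    nlinarith
  have hτ0 : 0 ≤ τ := by
    have : cos θ ≤ cos (π / 3) :=
      Real.cos_le_cos_of_nonneg_of_le_pi (by positivity) h2 h1
    rw [Real.cos_pi_div_three] at this
    rw [hτ]; linarith
  have hτ3 : τ ≤ 3 := by
    rw [hτ]; linarith [Real.neg_one_le_cos θ]
  have hgoal : 3 * θ - π = 3 * e := by rw [he]; ring
  rw [hgoal]
  unfold flow
  by_contra hcon
  push Not at hcon
  -- √3 e < τ (1 - τ/6)
  have h7 : √3 * e < τ * (1 - τ / 6) := by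
    have : √3 * (3 * e) < √3 * (√3 * τ * (1 - τ / 6)) := mul_lt_mul_of_pos_left hcon hs3
    nlinarith
  have h8 : (√3 * e) ^ 2 ≤ τ ^ 2 := by
    apply pow_le_pow_left₀ (by positivity)
    nlinarith
  nlinarith

end

end Pool.Agent.Lib.MP_88b2ed_co
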