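import Pool.Agent.Lib.MP_88b2ed_co.Finite

set_option linter.unusedSimpArgs false
set_option maxHeartbeats 4000000

namespace Pool.Agent.Lib.MP_88b2ed_co

open scoped InnerProductSpace
open Real

noncomputable section

/-- triple of vectors given by a coefficient matrix -/
def comb (C : Fin 3 → Fin 3 → ℝ) (v : Fin 3 → E3) : Fin 3 → E3 := fun k => ∑ i, C k i • v i

theorem Gram.inner_sum_sum {x : ℝ} {v : Fin 3 → E3} (h : Gram x v) (c d : Fin 3 → ℝ) :
    ⟪∑ i, c i • v i, ∑ i, d i • v i⟫_ℝ =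
      (1 - x) * (c 0 * d 0 + c 1 * d 1 + c 2 * d 2) +
        x * ((c 0 + c 1 + c 2) * (d 0 + d 1 + d 2)) := by
  simp only [Fin.sum_univ_three, inner_add_left, inner_add_right, inner_smul_left,
    inner_smul_right, h 0 0, h 0 1, h 0 2, h 1 0, h 1 1, h 1 2, h 2 0, h 2 1, h 2 2]
  simp
  ring

theorem Gram.comb {x y : ℝ} {v : Fin 3 → E3} (h : Gram x v) (C : Fin 3 → Fin 3 → ℝ)
    (hC : ∀ k l, (1 - x) * (C k 0 * C l 0 + C k 1 * C l 1 + C k 2 * C l 2) +
        x * ((C k 0 + C k 1 + C k 2) * (C l 0 + C l 1 + C l 2)) = if k = l then 1 else y) :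
    Gram y (comb C v) := by
  intro k l
  unfold Pool.Agent.Lib.MP_88b2ed_co.comb
  rw [h.inner_sum_sum, hC k l]

theorem sphTriangle_comb_subset (C : Fin 3 → Fin 3 → ℝ) (v : Fin 3 → E3)
    (hC : ∀ k i, 0 ≤ C k i) : sphTriangle (comb C v) ⊆ sphTriangle v := by
  rintro y ⟨b, hb, hy⟩
  refine ⟨fun i => ∑ k, b k * C k i, fun i => Finset.sum_nonneg fun k _ =>
    mul_nonneg (hb k) (hC k i), ?_⟩
  rw [hy]
  unfold comb
  simp only [Finset.smul_sum, Finset.sum_smul, smul_smul]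
  rw [Finset.sum_comm]

theorem disjoint_comb {x : ℝ} {v : Fin 3 → E3} (h : Gram x v) (h1 : -1 / 2 < x) (h2 : x < 1)
    (C D : Fin 3 → Fin 3 → ℝ) (s : Fin 3 → ℝ) (j : Fin 3) (hs : s j ≠ 0)
    (hC : ∀ k, 0 ≤ s 0 * C k 0 + s 1 * C k 1 + s 2 * C k 2)
    (hD : ∀ k, s 0 * D k 0 + s 1 * D k 1 + s 2 * D k 2 ≤ 0) :
    Disjoint (interior (sphTriangle (comb C v))) (interior (sphTriangle (comb D v))) := by
  have key : ∀ c : Fin 3 → ℝ, ⟪∑ i, s i • dualVec x v i, ∑ i, c i • v i⟫_ℝ =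
      (1 - x) * (s 0 * c 0 + s 1 * c 1 + s 2 * c 2) := by
    intro c
    rw [sum_inner]
    simp only [inner_smul_left, inner_dualVec_sum h h1]
    rw [Fin.sum_univ_three]
    simp
    ring
  apply disjoint_of_sep' (∑ i, s i • dualVec x v i)
  · intro h0
    have h3 := key (fun i => if i = j then 1 else 0)
    rw [h0, inner_zero_left] at h3
    have h4 : (1 - x) * s j = 0 := by
      rw [h3]
      fin_cases j <;> simp
    rcases mul_eq_zero.mp h4 with h5 | h5
    · linarith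
    · exact hs h5
  · intro k
    unfold comb
    rw [key]
    exact mul_nonneg (by linarith) (hC k)
  · intro k
    unfold comb
    rw [key]
    exact mul_nonpos_of_nonneg_of_nonpos (by linarith) (hD k)

/-- replace every triangle of a packing by `m` smaller triangles in it -/
theorem refine_packing {x y : ℝ} (h1 : -1 / 2 < x) (h2 : x < 1) {m : ℕ}
    (C : Fin m → Fin 3 → Fin 3 → ℝ) (hpos : ∀ a k i, 0 ≤ C a k i)
    (hgram : ∀ a k l, (1 - x) * (C a k 0 * C a l 0 + C a k 1 * C a l 1 + C a k 2 * C a l 2) +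
        x * ((C a k 0 + C a k 1 + C a k 2) * (C a l 0 + C a l 1 + C a l 2)) =
          if k = l then 1 else y)
    (hsep : ∀ a b, a < b → ∃ s : Fin 3 → ℝ, ∃ j, s j ≠ 0 ∧
      (∀ k, 0 ≤ s 0 * C a k 0 + s 1 * C a k 1 + s 2 * C a k 2) ∧
      (∀ k, s 0 * C b k 0 + s 1 * C b k 1 + s 2 * C b k 2 ≤ 0))
    {n : ℕ} (T : Fin n → Fin 3 → E3) (hT : GramPacking x T) :
    ∃ T' : Fin (n * m) → Fin 3 → E3, GramPacking y T' := by
  let F : Fin n × Fin m → Fin 3 → E3 := fun p => comb (C p.2) (T p.1)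
  have hF : GramPacking y F := by
    refine ⟨fun p => (hT.1 p.1).comb (C p.2) (hgram p.2), ?_⟩
    rintro ⟨i, a⟩ ⟨j, b⟩ hne
    by_cases hij : i = j
    · subst hij
      have hab : a ≠ b := by
        intro h
        exact hne (by rw [h])
      rcases lt_or_gt_of_ne hab with h | h
      · obtain ⟨s, j, hj, hs1, hs2⟩ := hsep a b h
        exact disjoint_comb (hT.1 i) h1 h2 _ _ s j hj hs1 hs2
      · obtain ⟨s, j, hj, hs1, hs2⟩ := hsep b a h
        exact (disjoint_comb (hT.1 i) h1 h2 _ _ s j hj hs1 hs2).symm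
    · exact (hT.2 hij).mono (interior_mono (sphTriangle_comb_subset _ _ (hpos a)))
        (interior_mono (sphTriangle_comb_subset _ _ (hpos b)))
  let e : Fin n × Fin m ≃ Fin (n * m) := finProdFinEquiv
  refine ⟨fun q => F (e.symm q), fun q => hF.1 _, ?_⟩
  intro p q hpq
  exact hF.2 (e.symm.injective.ne hpq)

/-- concentric shrinking -/
theorem exists_shrink {x y : ℝ} (h1 : -1 / 2 < x) (h2 : x < 1) (h3 : x ≤ y) (h4 : y < 1)
    {n : ℕ} (T : Fin n → Fin 3 → E3) (hT : GramPacking x T) :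
    ∃ T' : Fin n → Fin 3 → E3, GramPacking y T' := by
  have hx : 0 < 1 - x := by linarith
  have hx' : 0 < 1 + 2 * x := by linarith
  set β := √((1 - y) / (1 - x)) with hβ
  have hβ0 : 0 ≤ β := sqrt_nonneg _
  have hβ2 : β ^ 2 * (1 - x) = 1 - y := by
    rw [hβ, sq_sqrt (div_nonneg (by linarith) hx.le)]
    field_simp
  set r := √((1 + 2 * x) * (1 + 2 * y)) with hr
  have hr2 : r ^ 2 = (1 + 2 * x) * (1 + 2 * y) := by
    rw [hr, sq_sqrt (mul_nonneg hx'.le (by linarith))]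
  set α := (-(1 + 2 * x) * β + r) / (3 * (1 + 2 * x)) with hα
  have hrα : r = 3 * (1 + 2 * x) * α + (1 + 2 * x) * β := by
    rw [hα]; field_simp; ring
  have hα0 : 0 ≤ α := by
    rw [hα]
    apply div_nonneg _ (by linarith)
    have h5 : (1 + 2 * x) * β ≤ r := by
      apply Real.le_sqrt_of_sq_le
      have h6 : ((1 + 2 * x) * β) ^ 2 * (1 - x) = (1 + 2 * x) ^ 2 * (1 - y) := by
        rw [mul_pow, mul_assoc, hβ2]
      have h7 : (1 + 2 * x) ^ 2 * (1 - y) ≤ (1 + 2 * x) * (1 + 2 * y) * (1 - x) := by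
        have : (1 + 2 * x) * (1 - y) ≤ (1 + 2 * y) * (1 - x) := by nlinarith
        nlinarith
      rw [← h6] at h7
      exact le_of_mul_le_mul_right h7 hx
    linarith
  have key : (3 + 6 * x) * α ^ 2 + (2 + 4 * x) * α * β + x * β ^ 2 = y := by
    rw [hrα] at hr2
    have h5 : (1 + 2 * x) * (3 * ((3 + 6 * x) * α ^ 2 + (2 + 4 * x) * α * β + x * β ^ 2 - y)) = 0 := by
      linear_combination hr2 - (1 + 2 * x) * hβ2
    rcases mul_eq_zero.mp h5 with h6 | h6
    · linarith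
    · linarith
  have h5 := refine_packing (y := y) h1 h2 (m := 1)
    (fun _ k i => if k = i then α + β else α)
    (by intro a k i; split_ifs <;> positivity)
    (by
      intro a k l
      fin_cases k <;> fin_cases l <;> simp <;> nlinarith [key, hβ2])
    (by intro a b hab; exact absurd hab (by omega)) T hT
  rwa [mul_one] at h5

theorem hasPacking_mono {θ θ' : ℝ} (h1 : π / 3 < θ') (h2 : θ' ≤ θ) (h3 : θ < π) {n : ℕ}
    (h : HasPacking θ n) : HasPacking θ' n := by
  have h1' : π / 3 < θ := by linarith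
  have h3' : θ' < π := by linarith
  rw [hasPacking_iff h1' h3] at h
  rw [hasPacking_iff h1 h3']
  obtain ⟨T, hT⟩ := h
  refine exists_shrink (neg_half_lt_sideCos h1' h3) (sideCos_lt_one h1' h3) ?_
    (sideCos_lt_one h1 h3') T hT
  have hc : cos θ ≤ cos θ' := Real.cos_le_cos_of_nonneg_of_le_pi (by linarith [Real.pi_pos]) h3.le h2
  have hc1 := cos_lt_half h1 h3'
  unfold sideCos
  rw [div_le_div_iff₀ (by linarith) (by linarith)]
  nlinarith

/-- subdivision into four triangles -/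
theorem exists_subdiv {x y : ℝ} (h1 : -1 / 2 < x) (h2 : x < 1) (h3 : x ≤ y) (h4 : y < 1)
    (h0 : 0 ≤ y) (h5 : (1 + y) * (1 + x) ^ 2 ≤ y ^ 2 * (3 + 5 * x))
    (h6 : 1 + 3 * x ≤ y * (2 + 2 * x))
    {n : ℕ} (T : Fin n → Fin 3 → E3) (hT : GramPacking x T) :
    ∃ T' : Fin (n * 4) → Fin 3 → E3, GramPacking y T' := by
  have hx : 0 < 1 - x := by linarith
  have hx' : 0 < 1 + 2 * x := by linarith
  set β := √((1 - y) / (1 - x)) with hβ
  have hβ0 : 0 ≤ β := sqrt_nonneg _
  have hβ2 : β ^ 2 * (1 - x) = 1 - y := by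
    rw [hβ, sq_sqrt (div_nonneg (by linarith) hx.le)]
    field_simp
  set r := √((1 + 2 * x) * (1 + 2 * y)) with hr
  have hr0 : 0 ≤ r := sqrt_nonneg _
  have hr2 : r ^ 2 = (1 + 2 * x) * (1 + 2 * y) := by
    rw [hr, sq_sqrt (mul_nonneg hx'.le (by linarith))]
  -- middle triangle
  set α := ((1 + 2 * x) * β + r) / (3 * (1 + 2 * x)) with hα
  have hrα : r = 3 * (1 + 2 * x) * α - (1 + 2 * x) * β := by
    rw [hα]; field_simp; ring
  have hαβ : β ≤ α := by
    have h7 : 2 * (1 + 2 * x) * β ≤ r := by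
      apply Real.le_sqrt_of_sq_le
      have h8 : (2 * (1 + 2 * x) * β) ^ 2 * (1 - x) = 4 * (1 + 2 * x) ^ 2 * (1 - y) := by
        rw [mul_pow, mul_assoc, hβ2]; ring
      have h9 : 4 * (1 + 2 * x) ^ 2 * (1 - y) ≤ (1 + 2 * x) * (1 + 2 * y) * (1 - x) := by
        have : 4 * (1 + 2 * x) * (1 - y) ≤ (1 + 2 * y) * (1 - x) := by nlinarith
        nlinarith
      rw [← h8] at h9
      exact le_of_mul_le_mul_right h9 hx
    rw [hα, le_div_iff₀ (by linarith)]
    linarith
  have hα0 : 0 ≤ α := hβ0.trans hαβ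
  have key : (3 + 6 * x) * α ^ 2 - (2 + 4 * x) * α * β + x * β ^ 2 = y := by
    rw [hrα] at hr2
    have h7 : (1 + 2 * x) * (3 * ((3 + 6 * x) * α ^ 2 - (2 + 4 * x) * α * β + x * β ^ 2 - y)) = 0 := by
      linear_combination hr2 - (1 + 2 * x) * hβ2
    rcases mul_eq_zero.mp h7 with h8 | h8
    · linarith
    · linarith
  -- corner triangles
  set b := √((1 - y) * (1 + 2 * y) / (4 * ((1 - x) * (1 + 2 * x)))) with hb
  have hb0 : 0 ≤ b := sqrt_nonneg _
  have hden : 0 < (1 - x) * (1 + 2 * x) := mul_pos hx hx'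
  have hb2 : 4 * b ^ 2 * ((1 - x) * (1 + 2 * x)) = (1 - y) * (1 + 2 * y) := by
    rw [hb, sq_sqrt (div_nonneg (mul_nonneg (by linarith) (by linarith)) (by linarith))]
    field_simp
  set e := β / 2 with he
  have he0 : 0 ≤ e := by rw [he]; linarith
  have he2 : 4 * e ^ 2 * (1 - x) = 1 - y := by rw [he]; linear_combination hβ2
  have hbe : e ≤ b := by
    rw [hb]
    apply Real.le_sqrt_of_sq_le
    rw [le_div_iff₀ (by linarith)]
    have h7 : e ^ 2 * (4 * ((1 - x) * (1 + 2 * x))) = (1 - y) * (1 + 2 * x) := by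
      linear_combination (1 + 2 * x) * he2
    rw [h7]
    apply mul_le_mul_of_nonneg_left _ (by linarith)
    linarith
  set a := y - 2 * b * x with ha
  have hab : 2 * b ≤ a := by
    have h7 : 2 * b * (1 + x) ≤ y := by
      apply abs_le_of_sq_le_sq' _ h0 |>.2
      have h8 : (2 * b * (1 + x)) ^ 2 * ((1 - x) * (1 + 2 * x)) =
          (1 - y) * (1 + 2 * y) * (1 + x) ^ 2 := by
        linear_combination (1 + x) ^ 2 * hb2
      have h9 : (1 - y) * (1 + 2 * y) * (1 + x) ^ 2 ≤ y ^ 2 * ((1 - x) * (1 + 2 * x)) := by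
        nlinarith
      rw [← h8] at h9
      exact le_of_mul_le_mul_right h9 hden
    rw [ha]; linarith
  have k1 : a + 2 * b * x = y := by rw [ha]; ring
  have k2 : (1 - x) * (a ^ 2 + 2 * b ^ 2 + 2 * e ^ 2) + x * (a + 2 * b) ^ 2 = 1 := by
    have : a = y - 2 * b * x := ha
    rw [this]
    linear_combination (1 / 2) * hb2 + (1 / 2) * he2
  have k3 : (1 - x) * (a ^ 2 + 2 * b ^ 2 - 2 * e ^ 2) + x * (a + 2 * b) ^ 2 = y := by
    have : a = y - 2 * b * x := ha
    rw [this]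
    linear_combination (1 / 2) * hb2 - (1 / 2) * he2
  clear_value a b e
  have n1 : 0 ≤ b - e := by linarith
  have n2 : 0 ≤ b + e := by linarith
  have n3 : 0 ≤ a := by linarith
  have n4 : 0 ≤ α - β := by linarith
  let C : Fin 4 → Fin 3 → Fin 3 → ℝ :=
    ![![![α - β, α, α], ![α, α - β, α], ![α, α, α - β]],
      ![![1, 0, 0], ![a, b + e, b - e], ![a, b - e, b + e]],
      ![![0, 1, 0], ![b - e, a, b + e], ![b + e, a, b - e]],
      ![![0, 0, 1], ![b + e, b - e, a], ![b - e, b + e, a]]]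
  refine refine_packing (y := y) h1 h2 C ?_ ?_ ?_ T hT
  · intro q k i
    fin_cases q <;> fin_cases k <;> fin_cases i <;> simp [C] <;> linarith
  · intro q k l
    fin_cases q <;> fin_cases k <;> fin_cases l <;> simp [C] <;>
      first | linear_combination key | linear_combination key + hβ2 | linear_combination k1 | linear_combination k2 | linear_combination k3
  · intro q q' hqq
    have hs3 : ∀ s0 s1 s2 : ℝ, ((![s0, s1, s2] : Fin 3 → ℝ) 0 = s0) ∧
      ((![s0, s1, s2] : Fin 3 → ℝ) 1 = s1) ∧ ((![s0, s1, s2] : Fin 3 → ℝ) 2 = s2) := by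
      intro s0 s1 s2
      exact ⟨rfl, rfl, rfl⟩
    fin_cases q <;> fin_cases q' <;> first | exact absurd hqq (by decide) | skip
    · refine ⟨![-1, 1, 1], 0, by simp, ?_, ?_⟩ <;> intro k <;> fin_cases k <;> simp [C] <;> linarith
    · refine ⟨![1, -1, 1], 0, by simp, ?_, ?_⟩ <;> intro k <;> fin_cases k <;> simp [C] <;> linarith
    · refine ⟨![1, 1, -1], 0, by simp, ?_, ?_⟩ <;> intro k <;> fin_cases k <;> simp [C] <;> linarith
    · refine ⟨![1, -1, 0], 0, by simp, ?_, ?_⟩ <;> intro k <;> fin_cases k <;> simp [C] <;> linarith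
    · refine ⟨![1, 0, -1], 0, by simp, ?_, ?_⟩ <;> intro k <;> fin_cases k <;> simp [C] <;> linarith
    · refine ⟨![0, 1, -1], 1, by simp, ?_, ?_⟩ <;> intro k <;> fin_cases k <;> simp [C] <;> linarith

end

end Pool.Agent.Lib.MP_88b2ed_co
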