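import Pool.Agent.Lib.MP_88b2ed_co.Basic

set_option linter.unusedSimpArgs false

namespace Pool.Agent.Lib.MP_88b2ed_co

open scoped InnerProductSpace
open Real MeasureTheory

noncomputable section

/-- The open cone over a triangle. -/
def openCone (x : ℝ) (v : Fin 3 → E3) : Set E3 := {y | ∀ i, 0 < ⟪dualVec x v i, y⟫_ℝ}

theorem openCone_isOpen (x : ℝ) (v : Fin 3 → E3) : IsOpen (openCone x v) := by
  unfold openCone
  rw [Set.ofPred_forall]
  refine isOpen_iInter_of_finite fun i => ?_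
  exact isOpen_lt continuous_const (by fun_prop)

theorem openCone_convex (x : ℝ) (v : Fin 3 → E3) : Convex ℝ (openCone x v) := by
  intro y hy z hz a b ha hb hab i
  rw [inner_add_right, inner_smul_right, inner_smul_right]
  have h1 := hy i
  have h2 := hz i
  rcases ha.eq_or_lt with h | h
  · rw [← h] at hab ⊢
    have : b = 1 := by linarith
    rw [this]; linarith
  · have := mul_pos h h1
    have := mul_nonneg hb h2.le
    linarith

theorem smul_mem_openCone {x : ℝ} {v : Fin 3 → E3} {y : E3} (hy : y ∈ openCone x v) {s : ℝ}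
    (hs : 0 < s) : s • y ∈ openCone x v := by
  intro i
  rw [inner_smul_right]
  exact mul_pos hs (hy i)

theorem add_smul_mem_openCone {x : ℝ} {v : Fin 3 → E3} (h : Gram x v) (h1 : -1 / 2 < x)
    (h2 : x < 1) (k : Fin 3) {ε : ℝ} (hε : 0 < ε) :
    v k + ε • (v 0 + v 1 + v 2) ∈ openCone x v := by
  intro i
  rw [inner_add_right, inner_smul_right, inner_add_right, inner_add_right,
    inner_dualVec h h1, inner_dualVec h h1, inner_dualVec h h1, inner_dualVec h h1]
  have h3 : 0 < ε * (1 - x) := mul_pos hε (by linarith)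
  fin_cases i <;> fin_cases k <;> simp <;> nlinarith

theorem ne_zero_of_mem_openCone {x : ℝ} {v : Fin 3 → E3} {y : E3} (hy : y ∈ openCone x v) :
    y ≠ 0 := by
  rintro rfl
  have := hy 0
  simp at this

theorem openCone_disjoint {x : ℝ} {u v : Fin 3 → E3} (hu : Gram x u) (hv : Gram x v)
    (h1 : -1 / 2 < x) (h2 : x < 1)
    (hd : Disjoint (interior (sphTriangle u)) (interior (sphTriangle v))) :
    Disjoint (openCone x u) (openCone x v) := by
  rw [Set.disjoint_left] at hd ⊢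
  intro y hyu hyv
  have hne := ne_zero_of_mem_openCone hyu
  have hpos : 0 < ‖y‖⁻¹ := inv_pos.mpr (norm_pos_iff.mpr hne)
  let z : S2 := ⟨‖y‖⁻¹ • y, by
    rw [mem_sphere_zero_iff_norm, norm_smul, norm_inv, norm_norm]
    exact inv_mul_cancel₀ (norm_ne_zero_iff.mpr hne)⟩
  exact hd (mem_interior_of_pos hu h1 h2 z (smul_mem_openCone hyu hpos))
    (mem_interior_of_pos hv h1 h2 z (smul_mem_openCone hyv hpos))

theorem nonneg_of_forall_eps {a b : ℝ} (h : ∀ ε : ℝ, 0 < ε → 0 ≤ a + ε * b) : 0 ≤ a := by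
  by_contra hneg
  push Not at hneg
  have hb : 0 < 2 * (|b| + 1) := by positivity
  have h1 := h (-a / (2 * (|b| + 1))) (div_pos (by linarith) hb)
  have h2 : -a / (2 * (|b| + 1)) * b ≤ -a / 2 := by
    rw [div_mul_eq_mul_div, div_le_div_iff₀ hb (by norm_num)]
    have := le_abs_self b
    nlinarith
  linarith

theorem exists_sep {x : ℝ} {u v : Fin 3 → E3} (hu : Gram x u) (hv : Gram x v)
    (h1 : -1 / 2 < x) (h2 : x < 1)
    (hd : Disjoint (interior (sphTriangle u)) (interior (sphTriangle v))) :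
    ∃ c : E3, c ≠ 0 ∧ (∀ k, 0 ≤ ⟪c, u k⟫_ℝ) ∧ (∀ k, 0 ≤ ⟪-c, v k⟫_ℝ) := by
  have hd' := (openCone_disjoint hu hv h1 h2 hd).symm
  obtain ⟨f, m, hf1, hf2⟩ := geometric_hahn_banach_open_open (openCone_convex x v)
    (openCone_isOpen x v) (openCone_convex x u) (openCone_isOpen x u) hd'
  have hlt : ∀ a ∈ openCone x v, ∀ b ∈ openCone x u, f a < f b :=
    fun a ha b hb => (hf1 a ha).trans (hf2 b hb)
  -- base points
  have hau := add_smul_mem_openCone hu h1 h2 0 one_pos
  have hav := add_smul_mem_openCone hv h1 h2 0 one_pos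
  set pu := u 0 + (1 : ℝ) • (u 0 + u 1 + u 2)
  set pv := v 0 + (1 : ℝ) • (v 0 + v 1 + v 2)
  have hneg : ∀ a ∈ openCone x v, f a ≤ 0 := by
    intro a ha
    by_contra hcon
    push Not at hcon
    have h3 := hlt _ (smul_mem_openCone ha (s := (|f pu| + 1) / f a) (by positivity)) _ hau
    rw [map_smul, smul_eq_mul, div_mul_cancel₀ _ hcon.ne'] at h3
    have := le_abs_self (f pu)
    linarith
  have hpos : ∀ b ∈ openCone x u, 0 ≤ f b := by
    intro b hb
    by_contra hcon
    push Not at hcon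
    have h3 := hlt _ hav _ (smul_mem_openCone hb (s := (|f pv| + 1) / (-f b))
      (div_pos (by positivity) (by linarith)))
    rw [map_smul, smul_eq_mul, div_neg, neg_mul, div_mul_cancel₀ _ hcon.ne] at h3
    have := neg_abs_le (f pv)
    linarith
  refine ⟨(InnerProductSpace.toDual ℝ E3).symm f, ?_, ?_, ?_⟩
  · intro h0
    have hf0 : f = 0 := by simpa using h0
    have := hlt _ hav _ hau
    rw [hf0] at this
    simp at this
  · intro k
    rw [InnerProductSpace.toDual_symm_apply]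
    apply nonneg_of_forall_eps (b := f (u 0 + u 1 + u 2))
    intro ε hε
    have := hpos _ (add_smul_mem_openCone hu h1 h2 k hε)
    rwa [map_add, map_smul, smul_eq_mul] at this
  · intro k
    rw [inner_neg_left, InnerProductSpace.toDual_symm_apply]
    apply nonneg_of_forall_eps (b := -f (v 0 + v 1 + v 2))
    intro ε hε
    have := hneg _ (add_smul_mem_openCone hv h1 h2 k hε)
    rw [map_add, map_smul, smul_eq_mul] at this
    linarith

theorem inner_dualVec_dualVec {x : ℝ} {v : Fin 3 → E3} (h : Gram x v) (h1 : -1 / 2 < x)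
    (i j : Fin 3) : ⟪dualVec x v i, dualVec x v j⟫_ℝ =
      (1 - x) * ((if i = j then 1 else 0) - x / (1 + 2 * x)) := by
  conv_lhs => rw [dualVec.eq_def x v j]
  rw [inner_sub_right, inner_smul_right, inner_add_right, inner_add_right,
    inner_dualVec h h1, inner_dualVec h h1, inner_dualVec h h1, inner_dualVec h h1]
  generalize x / (1 + 2 * x) = y
  fin_cases i <;> fin_cases j <;> simp <;> ring

theorem eq_sum_dualVec {x : ℝ} {v : Fin 3 → E3} (h : Gram x v) (h1 : -1 / 2 < x) (h2 : x < 1)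
    (c : E3) : c = ∑ i, (⟪c, v i⟫_ℝ / (1 - x)) • dualVec x v i := by
  set d := c - ∑ i, (⟪c, v i⟫_ℝ / (1 - x)) • dualVec x v i with hd
  have h3 : (1 - x) ≠ 0 := by linarith
  have hdv : ∀ j, ⟪d, v j⟫_ℝ = 0 := by
    intro j
    rw [hd, inner_sub_left, sum_inner]
    simp only [inner_smul_left, inner_dualVec h h1]
    simp
    field_simp
    ring
  obtain ⟨a, ha⟩ := exists_coeff h h1 h2 d
  have hdd : ⟪d, ∑ i, a i • v i⟫_ℝ = 0 := by
    rw [inner_sum]
    simp only [inner_smul_right, hdv]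
    simp
  rw [← ha, inner_self_eq_zero] at hdd
  rw [hd, sub_eq_zero] at hdd
  exact hdd

/-- Two elements of the dual cone of a triangle with angle `θ > 2π/3` make an angle less than
`π/3`. -/
theorem dual_inner_gt {x : ℝ} {v : Fin 3 → E3} (h : Gram x v) (h1 : -1 / 2 < x)
    (h2 : x < -1 / 3) {c d : E3} (hc0 : ‖c‖ = 1) (hd0 : ‖d‖ = 1)
    (hc : ∀ k, 0 ≤ ⟪c, v k⟫_ℝ) (hd : ∀ k, 0 ≤ ⟪d, v k⟫_ℝ) : 1 / 2 < ⟪c, d⟫_ℝ := by
  have hx : 0 < 1 - x := by linarith
  have hx' : 0 < 1 + 2 * x := by linarith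
  have hxlt : x < 1 := by linarith
  have e1 : ∀ a b : Fin 3 → ℝ, ⟪∑ i, a i • dualVec x v i, ∑ i, b i • dualVec x v i⟫_ℝ =
      (1 - x) * ((a 0 * b 0 + a 1 * b 1 + a 2 * b 2) -
        x / (1 + 2 * x) * ((a 0 + a 1 + a 2) * (b 0 + b 1 + b 2))) := by
    intro a b
    simp only [Fin.sum_univ_three, inner_add_left, inner_add_right, inner_smul_left,
      inner_smul_right, inner_dualVec_dualVec h h1]
    generalize x / (1 + 2 * x) = y
    simp
    ring
  have hy : x / (1 + 2 * x) < -1 := by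
    rw [div_lt_iff₀ hx']; linarith
  generalize x / (1 + 2 * x) = y at e1 hy
  set a : Fin 3 → ℝ := fun i => ⟪c, v i⟫_ℝ / (1 - x) with ha
  set b : Fin 3 → ℝ := fun i => ⟪d, v i⟫_ℝ / (1 - x) with hb
  have hca : c = ∑ i, a i • dualVec x v i := eq_sum_dualVec h h1 hxlt c
  have hdb : d = ∑ i, b i • dualVec x v i := eq_sum_dualVec h h1 hxlt d
  have ha0 : ∀ i, 0 ≤ a i := fun i => div_nonneg (hc i) hx.le
  have hb0 : ∀ i, 0 ≤ b i := fun i => div_nonneg (hd i) hx.le
  have hcc : ⟪c, c⟫_ℝ = 1 := by rw [real_inner_self_eq_norm_sq, hc0]; norm_num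
  have hdd : ⟪d, d⟫_ℝ = 1 := by rw [real_inner_self_eq_norm_sq, hd0]; norm_num
  rw [hca, e1] at hcc
  rw [hdb, e1] at hdd
  rw [hca, hdb, e1]
  have a0 := ha0 0
  have a1 := ha0 1
  have a2 := ha0 2
  have b0 := hb0 0
  have b1 := hb0 1
  have b2 := hb0 2
  generalize a 0 = p0 at *
  generalize a 1 = p1 at *
  generalize a 2 = p2 at *
  generalize b 0 = q0 at *
  generalize b 1 = q1 at *
  generalize b 2 = q2 at *
  set A := p0 + p1 + p2 with hA
  set B := q0 + q1 + q2 with hB
  have hA0 : 0 ≤ A := by positivity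
  have hB0 : 0 ≤ B := by positivity
  have hpp : p0 * p0 + p1 * p1 + p2 * p2 ≤ A * A := by
    rw [hA]; nlinarith [mul_nonneg a0 a1, mul_nonneg a0 a2, mul_nonneg a1 a2]
  have hqq : q0 * q0 + q1 * q1 + q2 * q2 ≤ B * B := by
    rw [hB]; nlinarith [mul_nonneg b0 b1, mul_nonneg b0 b2, mul_nonneg b1 b2]
  have hpq : 0 ≤ p0 * q0 + p1 * q1 + p2 * q2 := by positivity
  -- (1-x)(1-y) A^2 ≥ 1
  have hA2 : 1 ≤ (1 - x) * (1 - y) * (A * A) := by
    have h3 : (1 - x) * (p0 * p0 + p1 * p1 + p2 * p2 - y * (A * A)) ≤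
        (1 - x) * (A * A - y * (A * A)) := mul_le_mul_of_nonneg_left (by linarith) hx.le
    rw [hcc] at h3
    linarith
  have hB2 : 1 ≤ (1 - x) * (1 - y) * (B * B) := by
    have h3 : (1 - x) * (q0 * q0 + q1 * q1 + q2 * q2 - y * (B * B)) ≤
        (1 - x) * (B * B - y * (B * B)) := mul_le_mul_of_nonneg_left (by linarith) hx.le
    rw [hdd] at h3
    linarith
  set K := (1 - x) * (1 - y) with hK
  have hK0 : 0 < K := by rw [hK]; exact mul_pos hx (by linarith)
  have hAB : 1 ≤ K * (A * B) := by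
    have h3 : 1 ≤ (K * (A * A)) * (K * (B * B)) := one_le_mul_of_one_le_of_one_le hA2 hB2
    have h4 : (K * (A * A)) * (K * (B * B)) = (K * (A * B)) ^ 2 := by ring
    rw [h4] at h3
    have h5 : 0 ≤ K * (A * B) := by positivity
    exact (one_le_sq_iff₀ h5).mp h3
  have h6 : (1 - x) * (p0 * q0 + p1 * q1 + p2 * q2 - y * (A * B)) ≥ (1 - x) * (-y * (A * B)) := by
    apply mul_le_mul_of_nonneg_left _ hx.le
    linarith
  have hABpos : 0 < A * B := by
    by_contra hcon
    push Not at hcon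
    have : K * (A * B) ≤ 0 := mul_nonpos_of_nonneg_of_nonpos hK0.le hcon
    linarith
  have h7 : K * (A * B) < 2 * ((1 - x) * (-y * (A * B))) := by
    rw [hK]
    have h8 : 0 < (1 - x) * (A * B) := mul_pos hx hABpos
    have h9 : (1 - x) * (1 - y) * (A * B) = (1 - x) * (A * B) * (1 - y) := by ring
    have h10 : 2 * ((1 - x) * (-y * (A * B))) = (1 - x) * (A * B) * (-2 * y) := by ring
    rw [h9, h10]
    exact mul_lt_mul_of_pos_left (by linarith) h8
  linarith

/-- For `θ > 2π/3` three triangles cannot be packed. -/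
theorem no_three {x : ℝ} (h1 : -1 / 2 < x) (h2 : x < -1 / 3) {u v w : Fin 3 → E3}
    (hu : Gram x u) (hv : Gram x v) (hw : Gram x w)
    (huv : Disjoint (interior (sphTriangle u)) (interior (sphTriangle v)))
    (huw : Disjoint (interior (sphTriangle u)) (interior (sphTriangle w)))
    (hvw : Disjoint (interior (sphTriangle v)) (interior (sphTriangle w))) : False := by
  have hx : x < 1 := by linarith
  have norm_sep : ∀ {u v : Fin 3 → E3}, Gram x u → Gram x v →
      Disjoint (interior (sphTriangle u)) (interior (sphTriangle v)) →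
      ∃ c : E3, ‖c‖ = 1 ∧ (∀ k, 0 ≤ ⟪c, u k⟫_ℝ) ∧ (∀ k, 0 ≤ ⟪-c, v k⟫_ℝ) := by
    intro u v hu hv hd
    obtain ⟨c, hc, h3, h4⟩ := exists_sep hu hv h1 hx hd
    have hpos : 0 < ‖c‖⁻¹ := inv_pos.mpr (norm_pos_iff.mpr hc)
    refine ⟨‖c‖⁻¹ • c, ?_, ?_, ?_⟩
    · rw [norm_smul, norm_inv, norm_norm]
      exact inv_mul_cancel₀ (norm_ne_zero_iff.mpr hc)
    · intro k
      rw [inner_smul_left]
      exact mul_nonneg (by simp) (h3 k)
    · intro k
      rw [← smul_neg, inner_smul_left]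
      exact mul_nonneg (by simp) (h4 k)
  obtain ⟨a, ha, ha1, ha2⟩ := norm_sep hu hv huv
  obtain ⟨b, hb, hb1, hb2⟩ := norm_sep hu hw huw
  obtain ⟨c, hc, hc1, hc2⟩ := norm_sep hv hw hvw
  have i1 := dual_inner_gt hu h1 h2 ha hb ha1 hb1
  have i2 := dual_inner_gt hv h1 h2 (c := -a) (d := c) (by rwa [norm_neg]) hc ha2 hc1
  have i3 := dual_inner_gt hw h1 h2 (c := -b) (d := -c) (by rwa [norm_neg]) (by rwa [norm_neg])
    hb2 hc2
  rw [inner_neg_left] at i2
  rw [inner_neg_neg] at i3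
  have haa : ⟪a, a⟫_ℝ = 1 := by rw [real_inner_self_eq_norm_sq, ha]; norm_num
  have hbb : ⟪b, b⟫_ℝ = 1 := by rw [real_inner_self_eq_norm_sq, hb]; norm_num
  have hcc : ⟪c, c⟫_ℝ = 1 := by rw [real_inner_self_eq_norm_sq, hc]; norm_num
  have h5 : 0 ≤ ⟪a - b + c, a - b + c⟫_ℝ := real_inner_self_nonneg
  rw [inner_add_left, inner_add_right, inner_add_right, inner_sub_left, inner_sub_right,
    inner_sub_right, inner_sub_left, inner_sub_right, real_inner_comm a b, real_inner_comm a c,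
    real_inner_comm b c, haa, hbb, hcc] at h5
  linarith

/-- A triangle and its antipode. -/
theorem two_pack {x : ℝ} (h1 : -1 / 2 < x) (h2 : x < 1) :
    ∃ T : Fin 2 → Fin 3 → E3, GramPacking x T := by
  obtain ⟨v, hv⟩ := exists_gram h1 h2
  have hs : ∀ k, ⟪v 0 + v 1 + v 2, v k⟫_ℝ = 1 + 2 * x := by
    intro k
    rw [inner_add_left, inner_add_left, hv 0 k, hv 1 k, hv 2 k]
    fin_cases k <;> simp <;> ring
  have hne : v 0 + v 1 + v 2 ≠ 0 := by
    intro h0
    have := hs 0
    rw [h0, inner_zero_left] at this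
    linarith
  have hneg : Gram x (fun k => -v k) := by
    intro i j
    rw [inner_neg_neg]
    exact hv i j
  have hd : Disjoint (interior (sphTriangle v)) (interior (sphTriangle fun k => -v k)) := by
    apply disjoint_of_sep' (v 0 + v 1 + v 2) hne
    · intro k
      rw [hs k]; linarith
    · intro k
      rw [inner_neg_right, hs k]; linarith
  refine ⟨![v, fun k => -v k], ?_, ?_⟩
  · intro i
    fin_cases i
    · exact hv
    · exact hneg
  · intro i j hij
    fin_cases i <;> fin_cases j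
    · exact absurd rfl hij
    · exact hd
    · exact hd.symm
    · exact absurd rfl hij

end

end Pool.Agent.Lib.MP_88b2ed_co
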